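import Pool.Agent.Helper104.ER.Core
import Pool.Agent.Helper104.PCD.Crit
import Pool.Agent.Helper104.PCV.Main
import Pool.Agent.Y227.SS.Uniform

set_option autoImplicit false

/-!
Systems: an explicit density of bad primes, or a short relation.
-/

namespace Pool.Agent.Helper104.ER

open Finset Polynomial Pool.Agent.W432.PC Pool.Agent.Helper104.PCD Pool.Agent.Helper104.PCV
open Pool.Agent.Y227.SS

universe u

theorem systems {R : Type u} [CommRing R] [IsDomain R] [CharZero R] [Algebra.FiniteType ℤ R]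
    {n r : ℕ} (hr : 2 ≤ r) (α : Fin n → R) (hα : ∀ i j, i ≠ j → IsUnit (α i - α j))
    (A : Fin n → Matrix (Fin r) (Fin r) R) (lam : Fin (n + 1) → Fin r → ℚ)
    (hlam : ∀ j : Fin n, HasExponents (A j) (lam j.castSucc))
    (hinf : HasExponents (∑ j, A j) (fun l => -lam (Fin.last n) l))
    (N : ℕ) (hN : 0 < N) (hNlam : ∀ i l, ∃ z : ℤ, (N : ℚ) * lam i l = z)
    (S : Finset (Fin (n + 1))) (hS0 : S.Nonempty)
    (hS : ∀ i ∉ S, ∀ l l', ∃ z : ℤ, lam i l - lam i l' = z) (K Q : ℕ)
    (hK : K = 4 * r ^ 6 * S.card ^ 3) (hQ : Q = 8 * (K + 1) ^ (r * S.card)) :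
    Rel lam N K Q ∨ (BadClasses α A N (1 / (Q : ℝ)) 1 ∧ ¬ CondII α A) := by
  classical
  have : NeZero N := ⟨hN.ne'⟩
  have hQ0 : 0 < Q := by rw [hQ]; positivity
  have hQR : (0 : ℝ) < Q := by exact_mod_cast hQ0
  rcases rel_or hNlam K Q with h | hrel
  · exact Or.inl h
  right
  choose e he using hNlam
  have hsum0 : ∑ i, ∑ l, e i l = 0 := by
    have h1 := trace_lam A (fun j => lam j.castSucc) (fun l => -lam (Fin.last n) l) hlam hinf
    have h2 : (N : ℚ) * ∑ i, ∑ l, lam i l = 0 := by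
      rw [Fin.sum_univ_castSucc, h1, sum_neg_distrib, neg_add_cancel, mul_zero]
    rw [mul_sum] at h2
    simp only [mul_sum, he] at h2
    exact_mod_cast h2
  set U : Finset (ZMod N)ˣ := univ.filter fun u => Bad α A N (((u : ZMod N).val : ℕ) : ℤ) with hU
  have hB := dichotomy hr e he (by rw [hsum0]; exact dvd_zero _) S hS0 hS hK hQ hrel
    ((unitSet N).filter fun a => Bad α A N a) (fun a ha haB x hx Z hZ hxZ => by
      have hno : ¬ Bad α A N a := fun h => haB (mem_filter.2 ⟨ha, h⟩)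
      exact crit α hα A lam hlam hinf N hN e he a hno x hx Z hZ hxZ)
  have hcard : ((unitSet N).filter fun a => Bad α A N a).card ≤ U.card := by
    have h1 : ((unitSet N).filter fun a => Bad α A N a) ⊆
        U.image fun u : (ZMod N)ˣ => ((u : ZMod N).val : ℤ) := by
      intro a ha
      rw [mem_filter] at ha
      obtain ⟨ha1, ha2⟩ := ha
      unfold unitSet at ha1
      rw [mem_image] at ha1
      obtain ⟨u, -, rfl⟩ := ha1
      exact mem_image.2 ⟨u, mem_filter.2 ⟨mem_univ _, ha2⟩, rfl⟩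
    exact (card_le_card h1).trans card_image_le
  have hden : 1 / (Q : ℝ) * N.totient ≤ U.card := by
    have h1 : N.totient ≤ Q * U.card := hB.trans (Nat.mul_le_mul_left Q hcard)
    have h2 : (N.totient : ℝ) ≤ Q * U.card := by exact_mod_cast h1
    rw [one_div, inv_mul_le_iff₀ hQR]
    exact h2
  have hbad : BadClasses α A N (1 / (Q : ℝ)) (∏ u ∈ U, (fun _ => (1 : R)) u) := by
    refine collect' α A N hN _ U hden (fun _ => (1 : R)) fun u hu =>
      ⟨(((u : ZMod N).val : ℕ) : ℤ), ?_, ?_⟩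
    · push_cast
      rw [ZMod.natCast_zmod_val]
    · obtain ⟨P₀, hP₀⟩ := (mem_filter.1 hu).2
      exact ⟨P₀, fun p hp hpP hap 𝔪 _ hpm _ => hP₀ p hp hpP hap 𝔪 hpm⟩
  rw [Finset.prod_const_one] at hbad
  exact ⟨hbad, hbad.not_condII hN (by positivity) one_ne_zero⟩

end Pool.Agent.Helper104.ER
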