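import Pool.Agent.Helper104.ER.Var
import Mathlib.Algebra.Order.Chebyshev

set_option autoImplicit false

/-!
The numerical form of the degree criterion.
-/

namespace Pool.Agent.Helper104.ER

open Finset Real Pool.Agent.Helper104.PCV

lemma mean_congr {r : ℕ} {φ ψ : Fin r → ℝ} (h : ∀ l, ∃ z : ℤ, φ l = ψ l + z) :
    mean φ = mean ψ := by
  unfold mean
  congr 1
  refine sum_congr rfl fun l _ => ?_
  obtain ⟨z, hz⟩ := h l
  rw [hz, e1_add_int]

lemma norm_mean_sq_le_one {r : ℕ} (hr : 0 < r) (φ : Fin r → ℝ) : ‖mean φ‖ ^ 2 ≤ 1 := by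
  have := norm_mean_le hr φ
  have := norm_nonneg (mean φ)
  nlinarith

lemma var_nonneg {r : ℕ} (hr : 0 < r) (φ : Fin r → ℝ) : 0 ≤ 1 - ‖mean φ‖ ^ 2 := by
  linarith [norm_mean_sq_le_one hr φ]

lemma var_zero {r : ℕ} (hr : 0 < r) {φ : Fin r → ℝ} (h : ∀ l l', φ l = φ l') :
    1 - ‖mean φ‖ ^ 2 = 0 := by
  rw [norm_mean_sq hr]
  have : ∀ l l', 1 - cos (2 * π * (φ l - φ l')) = 0 := by
    intro l l'
    rw [h l l', sub_self, mul_zero, cos_zero, sub_self]
  simp [this]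

lemma var_lower {r : ℕ} (hr : 0 < r) {φ : Fin r → ℝ} {l l' : Fin r} (h : |φ l - φ l'| ≤ 1 / 2) :
    16 * (φ l - φ l') ^ 2 ≤ r ^ 2 * (1 - ‖mean φ‖ ^ 2) := by
  have hr' : (0 : ℝ) < r := by exact_mod_cast hr
  have h0 : ∀ a b, 0 ≤ 1 - cos (2 * π * (φ a - φ b)) := fun a b => by
    linarith [cos_le_one (2 * π * (φ a - φ b))]
  rw [norm_mean_sq hr, mul_div_cancel₀ _ (by positivity)]
  by_cases hll : l = l'
  · subst hll
    rw [sub_self]
    have : (0 : ℝ) ≤ ∑ a, ∑ b, (1 - cos (2 * π * (φ a - φ b))) :=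
      sum_nonneg fun a _ => sum_nonneg fun b _ => h0 a b
    simpa using this
  · have h1 := cos_lower h
    have h2 : 8 * (φ l - φ l') ^ 2 ≤ 1 - cos (2 * π * (φ l' - φ l)) := by
      have h3 : |φ l' - φ l| ≤ 1 / 2 := by rw [abs_sub_comm]; exact h
      have := cos_lower h3
      nlinarith
    have h4 : ∀ a b, 1 - cos (2 * π * (φ a - φ b)) ≤ ∑ b', (1 - cos (2 * π * (φ a - φ b'))) :=
      fun a b => single_le_sum (f := fun b' => 1 - cos (2 * π * (φ a - φ b')))
        (fun b' _ => h0 a b') (mem_univ b)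
    have h5 : ∑ a ∈ ({l, l'} : Finset (Fin r)), ∑ b, (1 - cos (2 * π * (φ a - φ b))) ≤
        ∑ a, ∑ b, (1 - cos (2 * π * (φ a - φ b))) :=
      sum_le_sum_of_subset_of_nonneg (subset_univ _) fun a _ _ => sum_nonneg fun b _ => h0 a b
    rw [sum_pair hll] at h5
    linarith [h4 l l', h4 l' l]

lemma re_le {z : ℂ} (h : ‖z‖ ≤ 1) : 1 - z.re ≤ 2 := by
  have := Complex.abs_re_le_norm z
  have := neg_abs_le z.re
  linarith

/-- The numerical criterion. -/
theorem num_re {ι : Type*} [Fintype ι] [DecidableEq ι] [Nonempty ι] {r : ℕ} (hr : 2 ≤ r) {N : ℕ}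
    (hN : 0 < N) (E : ι → Fin r → ℤ) (hsum : (N : ℤ) ∣ ∑ i, ∑ l, E i l) (S : Finset ι)
    (hS0 : 1 ≤ S.card) (hS : ∀ i ∉ S, ∀ l l', (N : ℤ) ∣ E i l - E i l')
    (hcrit : ∀ x : ι → ℤ, 1 ≤ ∑ i, x i → ∀ Z : ι → Fin r → ℤ, (∀ i l, (N : ℤ) ∣ Z i l - E i l) →
      (∀ i l, x i ≤ Z i l) → (r : ℤ) * N ≤ ∑ i, ∑ l, Z i l) :
    1 - (∏ i, mean fun l => (E i l : ℝ) / N).re ≤
      (r : ℝ) ^ 4 * S.card * (1 - ‖∏ i, mean fun l => (E i l : ℝ) / N‖ ^ 2) := by
  have hr0 : 0 < r := by omega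
  have hr2 : (2 : ℝ) ≤ r := by exact_mod_cast hr
  have hN0 : (0 : ℤ) < N := by exact_mod_cast hN
  have hNR : (0 : ℝ) < N := by exact_mod_cast hN
  have hs1 : (1 : ℝ) ≤ S.card := by exact_mod_cast hS0
  let l₀ : Fin r := ⟨0, hr0⟩
  -- the lifts
  let b : ι → Fin r → ℤ := fun i l => Int.bmod (E i l - E i l₀) N
  have hb0 : ∀ i, b i l₀ = 0 := fun i => by
    simp only [b, sub_self, Int.zero_bmod]
  have hbd : ∀ i l, (N : ℤ) ∣ b i l - (E i l - E i l₀) := fun i l =>
    Int.dvd_bmod_sub_self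
  have hb2 : ∀ i l, 2 * |b i l| ≤ N := by
    intro i l
    have h1 : -((N : ℤ) / 2) ≤ b i l := Int.le_bmod hN
    have h2 : b i l < ((N : ℤ) + 1) / 2 := Int.bmod_lt hN
    rcases abs_cases (b i l) with ⟨h, _⟩ | ⟨h, _⟩ <;> rw [h] <;> omega
  have hbS : ∀ i ∉ S, ∀ l, b i l = 0 := by
    intro i hi l
    refine Int.eq_zero_of_abs_lt_dvd (m := (N : ℤ)) ?_ ?_
    · have h1 := dvd_add (hbd i l) (hS i hi l l₀)
      rwa [sub_add_cancel] at h1
    · have := hb2 i l
      have := abs_nonneg (b i l)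
      omega
  obtain ⟨lm, hlm⟩ : ∃ lm : ι → Fin r, ∀ i l, |b i l| ≤ |b i (lm i)| := by
    have : Nonempty (Fin r) := ⟨l₀⟩
    choose lm hlm using fun i => Finite.exists_max fun l => |b i l|
    exact ⟨lm, hlm⟩
  set D : ι → ℤ := fun i => |b i (lm i)| with hD
  have hDS : ∀ i ∉ S, D i = 0 := fun i hi => by
    simp only [hD, hbS i hi, abs_zero]
  have hD0 : ∀ i, 0 ≤ D i := fun i => abs_nonneg _
  -- a shift
  obtain ⟨T, hT⟩ : (N : ℤ) ∣ ∑ i, ∑ l, (E i l₀ + b i l) := by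
    have h1 : (N : ℤ) ∣ ∑ i, ∑ l, (b i l - (E i l - E i l₀)) :=
      dvd_sum fun i _ => dvd_sum fun l _ => hbd i l
    have h2 := dvd_add h1 hsum
    have h3 : ∑ i, ∑ l, (b i l - (E i l - E i l₀)) + ∑ i, ∑ l, E i l =
        ∑ i, ∑ l, (E i l₀ + b i l) := by
      rw [← sum_add_distrib]
      refine sum_congr rfl fun i _ => ?_
      rw [← sum_add_distrib]
      exact sum_congr rfl fun l _ => by ring
    rwa [h3] at h2
  let i₀ : ι := Classical.arbitrary ι
  let Z : ι → Fin r → ℤ := fun i l =>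
    E i l₀ + b i l - (if i = i₀ then (N : ℤ) * (T / r) else 0)
  have hZsum : ∑ i, ∑ l, Z i l = N * (T % r) := by
    simp only [Z, sum_sub_distrib, hT, sum_const, card_univ, Fintype.card_fin, nsmul_eq_mul,
      ← mul_sum, sum_ite_eq', mem_univ, if_true]
    have := Int.emod_add_mul_ediv T r
    have h1 : T % r = T - r * (T / r) := by linarith
    rw [h1]
    ring
  have hZE : ∀ i l, (N : ℤ) ∣ Z i l - E i l := by
    intro i l
    have h1 : Z i l - E i l = (b i l - (E i l - E i l₀)) -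
        (if i = i₀ then (N : ℤ) * (T / r) else 0) := by
      simp only [Z]; ring
    rw [h1]
    refine dvd_sub (hbd i l) ?_
    split_ifs
    · exact dvd_mul_right _ _
    · exact dvd_zero _
  have hZb : ∀ i l l', Z i l - Z i l' = b i l - b i l' := fun i l l' => by
    simp only [Z]; ring
  have hmean : ∀ i, (mean fun l => (E i l : ℝ) / N) = mean fun l => (Z i l : ℝ) / N := by
    intro i
    refine mean_congr fun l => ?_
    obtain ⟨w, hw⟩ := hZE i l
    refine ⟨-w, ?_⟩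
    have h1 : (Z i l : ℝ) - E i l = N * w := by exact_mod_cast hw
    have h2 : (Z i l : ℝ) = E i l + N * w := by linarith
    rw [h2]
    push_cast
    field_simp
    ring
  have hprod : (∏ i, mean fun l => (E i l : ℝ) / N) = ∏ i, mean fun l => (Z i l : ℝ) / N :=
    prod_congr rfl fun i _ => hmean i
  rw [hprod]
  set v : ι → ℝ := fun i => 1 - ‖mean fun l => (Z i l : ℝ) / N‖ ^ 2 with hv
  have hv0 : ∀ i, 0 ≤ v i := fun i => var_nonneg hr0 _
  have hv1 : ∀ i, v i ≤ 1 := fun i => by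
    simp only [hv]
    have := sq_nonneg ‖mean fun l => (Z i l : ℝ) / N‖
    linarith
  have hvS : ∀ i ∉ S, v i = 0 := by
    intro i hi
    refine var_zero hr0 fun l l' => ?_
    have h1 : Z i l = Z i l' := by
      have := hZb i l l'
      rw [hbS i hi, hbS i hi] at this
      linarith
    rw [h1]
  have hVS : ∑ i, v i = ∑ i ∈ S, v i := by
    symm
    refine sum_subset (subset_univ _) fun i _ hi => hvS i hi
  have hV0 : 0 ≤ ∑ i, v i := sum_nonneg fun i _ => hv0 i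
  have hVs : ∑ i, v i ≤ S.card := by
    rw [hVS]
    refine (sum_le_sum fun i _ => hv1 i).trans ?_
    simp
  have hq : ‖∏ i, mean fun l => (Z i l : ℝ) / N‖ ^ 2 = ∏ i, (1 - v i) := by
    rw [norm_prod, ← prod_pow]
    refine prod_congr rfl fun i _ => ?_
    simp only [hv]
    ring
  have hpl := prod_le univ v hv0 hv1
  rw [← hq] at hpl
  have hz1 : ‖∏ i, mean fun l => (Z i l : ℝ) / N‖ ≤ 1 := by
    rw [norm_prod]
    exact prod_le_one (fun i _ => norm_nonneg _) fun i _ => norm_mean_le hr0 _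
  set q : ℝ := 1 - ‖∏ i, mean fun l => (Z i l : ℝ) / N‖ ^ 2 with hqd
  have hqV : ∑ i, v i ≤ q * (1 + ∑ i, v i) := by
    have : (1 - q) * (1 + ∑ i, v i) ≤ 1 := by
      rw [hqd]
      simpa using hpl
    linarith
  have hq0 : 0 ≤ q := by
    rw [hqd]
    have := norm_nonneg (∏ i, mean fun l => (Z i l : ℝ) / N)
    nlinarith
  have hr4 : (16 : ℝ) ≤ (r : ℝ) ^ 4 := by
    have : (2 : ℝ) ^ 4 ≤ (r : ℝ) ^ 4 := by gcongr
    linarith
  by_cases hcase : 2 * (r : ℤ) * ∑ i, D i < N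
  · -- close points
    have hdiff : ∀ i l l', 2 * |Z i l - Z i l'| ≤ N := by
      intro i l l'
      rw [hZb]
      have h1 : |b i l - b i l'| ≤ |b i l| + |b i l'| := abs_sub _ _
      have h2 : D i ≤ ∑ i, D i := single_le_sum (fun i _ => hD0 i) (mem_univ i)
      have h3 : 2 * 2 * ∑ i, D i ≤ 2 * (r : ℤ) * ∑ i, D i := by
        have : (2 : ℤ) ≤ r := by exact_mod_cast hr
        have h4 : 0 ≤ ∑ i, D i := sum_nonneg fun i _ => hD0 i
        nlinarith
      have h5 := hlm i l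
      have h6 := hlm i l'
      have h7 : D i = |b i (lm i)| := rfl
      linarith
    have hdvd : T % r = 0 := by
      by_contra hne
      have h1 : 0 ≤ T % r := Int.emod_nonneg _ (by positivity)
      have h2 : T % r < r := Int.emod_lt_of_pos _ (by exact_mod_cast hr0)
      have h3 := hcrit (fun i => Z i l₀ - D i) ?_ Z hZE ?_
      · rw [hZsum] at h3
        have h4 : (r : ℤ) ≤ T % r := by
          by_contra hcon
          push Not at hcon
          nlinarith
        omega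
      · -- r ∑ x ≥ tN - (2 r - 1) ∑ D > 0
        have h4 : ∑ i, ∑ l, Z i l ≤ ∑ i, ∑ _l : Fin r, (Z i l₀ + D i) := by
          refine sum_le_sum fun i _ => sum_le_sum fun l _ => ?_
          have h5 := hZb i l l₀
          rw [hb0, sub_zero] at h5
          have h6 := le_abs_self (b i l)
          have h7 := hlm i l
          have h8 : D i = |b i (lm i)| := rfl
          linarith
        rw [hZsum] at h4
        simp only [sum_const, card_univ, Fintype.card_fin, nsmul_eq_mul] at h4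
        rw [← mul_sum, sum_add_distrib] at h4
        rw [sum_sub_distrib]
        have h5 : (1 : ℤ) ≤ T % r := by omega
        have h6 : (N : ℤ) * 1 ≤ N * (T % r) := by gcongr
        have h7 : 0 < (r : ℤ) * (∑ i, Z i l₀ - ∑ i, D i) := by
          have e1 : (r : ℤ) * (∑ i, Z i l₀ - ∑ i, D i) =
              r * (∑ i, Z i l₀ + ∑ i, D i) - 2 * r * ∑ i, D i := by ring
          rw [e1]
          linarith
        have h8 : (0 : ℤ) < r := by exact_mod_cast hr0
        have h9 : 0 < ∑ i, Z i l₀ - ∑ i, D i := by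
          by_contra hcon
          push Not at hcon
          have := mul_nonpos_of_nonneg_of_nonpos h8.le hcon
          linarith
        omega
      · intro i l
        have h5 := hZb i l l₀
        rw [hb0, sub_zero] at h5
        have h6 := neg_abs_le (b i l)
        have h7 := hlm i l
        have h8 : D i = |b i (lm i)| := rfl
        linarith
    rw [hdvd, mul_zero] at hZsum
    have h1 := one_sub_re_prod hr0 (fun i l => (Z i l : ℝ) / N) (by
      have h2 : ∑ i, ∑ l, (Z i l : ℝ) = 0 := by exact_mod_cast hZsum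
      simp only [← sum_div, h2, zero_div]) (by
      intro i l l'
      rw [← sub_div, abs_div, abs_of_pos hNR, div_le_iff₀ hNR]
      have h2 : (2 : ℝ) * |(Z i l : ℝ) - Z i l'| ≤ N := by exact_mod_cast hdiff i l l'
      linarith)
    refine h1.trans ?_
    have h2 : ∑ i, v i ≤ q * (1 + S.card) :=
      hqV.trans (by gcongr)
    have h3 : q * (1 + S.card) ≤ q * (2 * S.card) := by
      gcongr
      linarith
    have h4 : (5 / 4 : ℝ) * (q * (2 * S.card)) ≤ (r : ℝ) ^ 4 * S.card * q := by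
      have h5 : 0 ≤ (S.card : ℝ) * q := by positivity
      nlinarith
    have h6 : ∑ i, (1 - ‖mean fun l => (Z i l : ℝ) / N‖ ^ 2) = ∑ i, v i := rfl
    rw [h6]
    linarith
  · -- large differences
    push Not at hcase
    have h1 : ∀ i, 16 * (D i : ℝ) ^ 2 ≤ (r : ℝ) ^ 2 * N ^ 2 * v i := by
      intro i
      have h2 : |((Z i (lm i) : ℝ)) / N - (Z i l₀ : ℝ) / N| ≤ 1 / 2 := by
        rw [← sub_div, abs_div, abs_of_pos hNR, div_le_iff₀ hNR]
        have h3 := hZb i (lm i) l₀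
        rw [hb0, sub_zero] at h3
        have h4 : (Z i (lm i) : ℝ) - Z i l₀ = b i (lm i) := by exact_mod_cast h3
        rw [h4]
        have h5 : (2 : ℝ) * |(b i (lm i) : ℝ)| ≤ N := by exact_mod_cast hb2 i (lm i)
        linarith
      have h3 := var_lower hr0 (φ := fun l => (Z i l : ℝ) / N) h2
      have h4 : (((Z i (lm i) : ℝ)) / N - (Z i l₀ : ℝ) / N) ^ 2 = (D i : ℝ) ^ 2 / N ^ 2 := by
        rw [← sub_div, div_pow]
        congr 1
        have h5 := hZb i (lm i) l₀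
        rw [hb0, sub_zero] at h5
        have h6 : (Z i (lm i) : ℝ) - Z i l₀ = b i (lm i) := by exact_mod_cast h5
        rw [h6]
        have h7 : (D i : ℝ) = |(b i (lm i) : ℝ)| := by
          simp only [hD]
          push_cast
          rfl
        rw [h7, sq_abs]
      beta_reduce at h3
      rw [h4] at h3
      have h5 : 16 * ((D i : ℝ) ^ 2 / N ^ 2) * N ^ 2 ≤ (r : ℝ) ^ 2 * v i * N ^ 2 := by
        exact mul_le_mul_of_nonneg_right h3 (by positivity)
      have h6 : 16 * ((D i : ℝ) ^ 2 / N ^ 2) * N ^ 2 = 16 * (D i : ℝ) ^ 2 := by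
        field_simp
      rw [h6] at h5
      linarith
    have h2 : (N : ℝ) ≤ 2 * r * ∑ i ∈ S, (D i : ℝ) := by
      have h3 : ∑ i ∈ S, (D i : ℝ) = ((∑ i, D i : ℤ) : ℝ) := by
        push_cast
        refine sum_subset (subset_univ _) fun i _ hi => ?_
        rw [hDS i hi]
        simp
      rw [h3]
      exact_mod_cast hcase
    have h3 : (∑ i ∈ S, (D i : ℝ)) ^ 2 ≤ S.card * ∑ i ∈ S, (D i : ℝ) ^ 2 :=
      sq_sum_le_card_mul_sum_sq
    have h4 : 16 * ∑ i ∈ S, (D i : ℝ) ^ 2 ≤ (r : ℝ) ^ 2 * N ^ 2 * ∑ i, v i := by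
      rw [hVS, mul_sum, mul_sum]
      exact sum_le_sum fun i _ => h1 i
    have h5 : (4 : ℝ) ≤ (r : ℝ) ^ 4 * S.card * ∑ i, v i := by
      -- N² ≤ 4 r² (∑D)² ≤ 4 r² s ∑D² ≤ (r² s / 4) r² N² V
      have h6 : (N : ℝ) ^ 2 ≤ (2 * r * ∑ i ∈ S, (D i : ℝ)) ^ 2 := by gcongr
      have h7 : (2 * r * ∑ i ∈ S, (D i : ℝ)) ^ 2 ≤
          4 * r ^ 2 * (S.card * ∑ i ∈ S, (D i : ℝ) ^ 2) := by
        have : (2 * r * ∑ i ∈ S, (D i : ℝ)) ^ 2 = 4 * r ^ 2 * (∑ i ∈ S, (D i : ℝ)) ^ 2 := by ring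
        rw [this]
        gcongr
      have h8 : 4 * (r : ℝ) ^ 2 * (S.card * ∑ i ∈ S, (D i : ℝ) ^ 2) =
          (r : ℝ) ^ 2 * S.card / 4 * (16 * ∑ i ∈ S, (D i : ℝ) ^ 2) := by ring
      have h9 : (r : ℝ) ^ 2 * S.card / 4 * (16 * ∑ i ∈ S, (D i : ℝ) ^ 2) ≤
          (r : ℝ) ^ 2 * S.card / 4 * ((r : ℝ) ^ 2 * N ^ 2 * ∑ i, v i) := by gcongr
      have h10 : (N : ℝ) ^ 2 * 4 ≤ N ^ 2 * ((r : ℝ) ^ 4 * S.card * ∑ i, v i) := by
        have e1 : (r : ℝ) ^ 2 * S.card / 4 * ((r : ℝ) ^ 2 * N ^ 2 * ∑ i, v i) * 4 =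
            N ^ 2 * ((r : ℝ) ^ 4 * S.card * ∑ i, v i) := by ring
        rw [← e1]
        linarith
      exact le_of_mul_le_mul_left h10 (by positivity)
    have hC : (16 : ℝ) ≤ (r : ℝ) ^ 4 * S.card := by nlinarith
    set C : ℝ := (r : ℝ) ^ 4 * S.card with hCd
    have h6 : 2 * (1 + ∑ i, v i) ≤ C * q * (1 + ∑ i, v i) := by
      have h7 : C * ∑ i, v i ≤ C * (q * (1 + ∑ i, v i)) := by gcongr
      have h8 : 2 * (1 + ∑ i, v i) ≤ C * ∑ i, v i := by nlinarith
      linarith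
    have h7 : 2 ≤ C * q := le_of_mul_le_mul_right h6 (by linarith)
    exact (re_le hz1).trans h7

end Pool.Agent.Helper104.ER
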