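import Pool.Agent.Helper104.ER.Rec
import Pool.Agent.Helper104.ER.Num

set_option autoImplicit false

/-!
The arithmetic dichotomy: a short relation or many bad units.
-/

namespace Pool.Agent.Helper104.ER

open Finset Real Pool.Agent.Helper104.PCV

variable {ι : Type*} [Fintype ι] [DecidableEq ι] {r : ℕ}

/-- Many units are bad, if there is no relation. -/
theorem dichotomy [Nonempty ι] (hr : 2 ≤ r) {lam : ι → Fin r → ℚ} {N : ℕ} [NeZero N]
    (e : ι → Fin r → ℤ) (he : ∀ i l, (N : ℚ) * lam i l = e i l)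
    (hsum : (N : ℤ) ∣ ∑ i, ∑ l, e i l) (S : Finset ι) (hS0 : S.Nonempty)
    (hS : ∀ i ∉ S, ∀ l l', ∃ z : ℤ, lam i l - lam i l' = z) {K Q : ℕ}
    (hK : K = 4 * r ^ 6 * S.card ^ 3) (hQ : Q = 8 * (K + 1) ^ (r * S.card))
    (hrel : NoRel lam K Q) (B : Finset ℤ)
    (hcrit : ∀ a ∈ unitSet N, a ∉ B → ∀ x : ι → ℤ, 1 ≤ ∑ i, x i → ∀ Z : ι → Fin r → ℤ,
      (∀ i l, (N : ℤ) ∣ Z i l - a * e i l) → (∀ i l, x i ≤ Z i l) →
        (r : ℤ) * N ≤ ∑ i, ∑ l, Z i l) : N.totient ≤ Q * B.card := by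
  have hN0 : 0 < N := Nat.pos_of_ne_zero (NeZero.ne N)
  have hNq : (N : ℚ) ≠ 0 := by exact_mod_cast hN0.ne'
  have hNr : (N : ℝ) ≠ 0 := by exact_mod_cast hN0.ne'
  refine many_bad hr (fun i l => ⟨_, he i l⟩) S (card_pos.2 hS0) hS hK hQ hrel B fun a ha haB => ?_
  have h1 := num_re hr hN0 (fun i l => a * e i l) (by
      simp only [← mul_sum]
      exact hsum.mul_left a) S (card_pos.2 hS0) (fun i hi l l' => by
      obtain ⟨z, hz⟩ := hS i hi l l'
      refine ⟨a * z, ?_⟩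
      have h2 : (e i l : ℚ) - e i l' = N * z := by
        rw [← he, ← he, ← hz]
        ring
      have h3 : e i l - e i l' = N * z := by exact_mod_cast h2
      rw [← mul_sub, h3]
      ring) (hcrit a ha haB)
  have h2 : (∏ i, mean fun l => (((a * e i l : ℤ)) : ℝ) / N) = zz lam a := by
    unfold zz
    refine prod_congr rfl fun i _ => ?_
    congr 1
    funext l
    rw [div_eq_iff hNr]
    have h3 : (N : ℝ) * lam i l = e i l := by exact_mod_cast he i l
    push_cast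
    rw [← h3]
    ring
  rwa [h2] at h1

/-- The relation. -/
def Rel (lam : ι → Fin r → ℚ) (N K Q : ℕ) : Prop :=
  ∃ (ε : ℤ) (h : ι → Fin r → ℤ), (ε = 0 ∨ ε = 1) ∧ (∀ i, ∑ l, h i l = ε) ∧
    (∀ i, ∑ l, |h i l| ≤ 2 * K + 1) ∧
    Squarefree (∑ i, ∑ l, (h i l : ℚ) * lam i l).den ∧
    (∑ i, ∑ l, (h i l : ℚ) * lam i l).den.totient < Q ∧
    (ε = 0 → (∑ i, ∑ l, (h i l : ℚ) * lam i l).den ≠ 1) ∧
    ((∀ p : ℕ, p.Prime → p ∣ N → Q < p) → ε = 1 ∧ (∑ i, ∑ l, (h i l : ℚ) * lam i l).den = 1)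

omit [DecidableEq ι] in
/-- Either there is a relation, or there is none. -/
theorem rel_or {lam : ι → Fin r → ℚ} {N : ℕ} (hN : ∀ i l, ∃ z : ℤ, (N : ℚ) * lam i l = z)
    (K Q : ℕ) : Rel lam N K Q ∨ NoRel lam K Q := by
  by_cases hno : NoRel lam K Q
  · exact Or.inr hno
  left
  unfold NoRel at hno
  push Not at hno
  obtain ⟨ε, h, h1, h2, h3, h4, h5, h6⟩ := hno
  refine ⟨ε, h, h1, h2, h3, h5, h6, h4, fun hrough => ?_⟩
  have hdvd : (∑ i, ∑ l, (h i l : ℚ) * lam i l).den ∣ N := by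
    choose e he using hN
    have h7 : (N : ℚ) * (∑ i, ∑ l, (h i l : ℚ) * lam i l) = ((∑ i, ∑ l, h i l * e i l : ℤ) : ℚ) := by
      push_cast
      rw [mul_sum]
      refine sum_congr rfl fun i _ => ?_
      rw [mul_sum]
      refine sum_congr rfl fun l _ => ?_
      rw [← he i l]
      ring
    set q : ℚ := ∑ i, ∑ l, (h i l : ℚ) * lam i l with hq
    have h8 : (q.den : ℤ) ∣ (N : ℤ) * q.num := by
      have h9 : (N : ℚ) * q.num = ((∑ i, ∑ l, h i l * e i l : ℤ) : ℚ) * q.den := by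
        rw [← h7, mul_assoc, Rat.mul_den_eq_num]
      have h10 : (N : ℤ) * q.num = (∑ i, ∑ l, h i l * e i l) * q.den := by exact_mod_cast h9
      rw [h10]
      exact dvd_mul_left _ _
    exact_mod_cast q.isCoprime_num_den.symm.dvd_of_dvd_mul_right h8
  have hden : (∑ i, ∑ l, (h i l : ℚ) * lam i l).den = 1 := by
    by_contra hne
    obtain ⟨p, hp, hpd⟩ := Nat.exists_prime_and_dvd hne
    have h7 := hrough p hp (hpd.trans hdvd)
    have h8 : p.totient ∣ (∑ i, ∑ l, (h i l : ℚ) * lam i l).den.totient :=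
      Nat.totient_dvd_of_dvd hpd
    have h9 := Nat.le_of_dvd (Nat.totient_pos.2 (Rat.den_pos _)) h8
    rw [Nat.totient_prime hp] at h9
    omega
  refine ⟨?_, hden⟩
  rcases h1 with h1 | h1
  · exact absurd hden (h4 h1)
  · exact h1

end Pool.Agent.Helper104.ER
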