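import Pool.Agent.Helper104.ER.Core
import Pool.Agent.Helper104.PCD.Crit
import Pool.Agent.TH829.PC.Ineq
import Pool.Agent.TH829.PC.Data2
import Pool.Agent.Y227.SO.Final

set_option autoImplicit false

/-!
Operators: an explicit density of bad primes, or a short relation.
-/

namespace Pool.Agent.Helper104.ER

open Finset Polynomial Pool.Agent.W280.PC Pool.Agent.W432.WB Pool.Agent.TH829.PC
open Pool.Agent.TH571.PCV (pos_of_ineq)
open Pool.Agent.W432.PC (wt lexLE)
open Pool.Agent.Helper104.PCD (emod_le le_emod)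
open Pool.Agent.Helper104.PCV (unitSet)

universe u

/-- There is no full basis modulo the large primes in the class given by `a`. -/
def OpBad {n : ℕ} (b : Fin (n + 1) → ℤ[X]) (N : ℕ) (a : ℤ) : Prop :=
  ∃ P₀ : ℕ, ∀ p : ℕ, P₀ < p → (N : ℤ) ∣ a * p + 1 → ∀ _hp : Fact p.Prime, ¬ FullMod b p

/-- The inequality of remainders for an operator without bad primes in the class `a`. -/
theorem op_ineq {F : Type u} [Field F] [CharZero F] {m n : ℕ} (hm : 0 < m) (hn : 0 < n)
    (b : Fin (n + 1) → ℤ[X]) (hb : b (Fin.last n) ≠ 0) (α : Fin m → F) (Q : Fin (n + 1) → F[X])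
    (hF : IsFuchs b α Q) (lam : Fin m → Fin n → ℚ) (phi : Fin n → ℚ) (hE : HasExps α Q lam phi)
    (N : ℕ) (hN : 0 < N) (e : Fin m → Fin n → ℤ) (f : Fin n → ℤ)
    (he : ∀ j l, (N : ℚ) * lam j l = e j l) (hf : ∀ l, (N : ℚ) * phi l = f l)
    (a : ℤ) (hno : ¬ OpBad b N a) (x : Fin m → ℤ) :
    ∑ l, (a * (f l + N * (((n - 1) * (m - 1) : ℕ) : ℤ)) - ∑ j, x j) % (N : ℤ) ≤
      ∑ j, ∑ l, (a * e j l - x j) % (N : ℤ) := by
  have hNq : (0 : ℚ) < N := by exact_mod_cast hN
  set e' : Fin n → ℤ := fun l => f l + N * (((n - 1) * (m - 1) : ℕ) : ℤ) with he'd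
  set ps : Fin n → ℚ := fun l => phi l + (((n - 1) * (m - 1) : ℕ) : ℚ) with hps
  have hep : ∀ l, (N : ℚ) * ps l = e' l := fun l => by
    simp only [hps, he'd, mul_add, hf]
    push_cast
    ring
  choose σ hσ using fun j => exists_sorted a (lam j)
  obtain ⟨τ, hτ⟩ := exists_sorted a ps
  have hmono : ∀ {x y : ℚ} {u v : ℤ}, (N : ℚ) * x = u → (N : ℚ) * y = v → lexLE a x y →
      wI N a u ≤ wI N a v := by
    intro x y u v hx hy hxy
    have h1 : wt a x ≤ wt a y := by
      rcases hxy with h | h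
      · exact h.le
      · exact h.1.le
    have h2 := mul_le_mul_of_nonneg_left h1 hNq.le
    rw [wt_wI hN hx, wt_wI hN hy] at h2
    exact_mod_cast h2
  have hfu := fuchs_int hm hn hF hE (N := N) (mu := e) (mu' := f) he hf
  have hperm : ∀ j, ∑ l, wI N a (e j (σ j l)) = ∑ l, wI N a (e j l) := fun j =>
    Equiv.sum_comp (σ j) (fun l => wI N a (e j l))
  have hperm' : ∑ l, wI N a (e' (τ l)) = ∑ l, wI N a (e' l) :=
    Equiv.sum_comp τ (fun l => wI N a (e' l))
  have hdvd : (N : ℤ) ∣ ∑ j, ∑ l, wI N a (e j l) - ∑ l, wI N a (e' l) := by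
    have h1 : ∑ j, ∑ l, wI N a (e j l) - ∑ l, wI N a (e' l) =
        ∑ j, ∑ l, (wI N a (e j l) - a * e j l) -
          ∑ l, (wI N a (e' l) - a * e' l) - N * (a * ∑ i, ((cw m n i : ℕ) : ℤ)) := by
      simp only [Finset.sum_sub_distrib, ← Finset.mul_sum]
      have h2 : ∑ l, e' l = ∑ j, ∑ l, e j l + N * ∑ i, ((cw m n i : ℕ) : ℤ) := hfu.symm
      rw [h2]
      ring
    rw [h1]
    exact dvd_sub (dvd_sub (Finset.dvd_sum fun j _ => Finset.dvd_sum fun l _ => wI_mod a _)
      (Finset.dvd_sum fun l _ => wI_mod a _)) (Dvd.intro _ rfl)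
  obtain ⟨M, hM⟩ := hdvd
  rw [mul_comm] at hM
  have hpos := pos_of_ineq hN (fun j l => wI N a (e j (σ j l))) (fun l => wI N a (e' (τ l)))
    (fun j l l' h => hmono (he j _) (he j _) (hσ j l l' h))
    (fun l l' h => hmono (hep _) (hep _) (hτ l l' h))
    (fun j l => wI_nonneg hN a _) (fun j l => wI_le hN a _) (fun l => wI_nonneg hN a _)
    (fun l => wI_le hN a _) M (by simp only [hperm, hperm']; exact hM) ?_ x
  · have hmod : ∀ y z : ℤ, (wI N a y - z) % (N : ℤ) = (a * y - z) % (N : ℤ) := by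
      intro y z
      refine Int.ModEq.symm (Int.modEq_iff_dvd.2 ?_)
      have h1 := wI_mod (D := N) a y
      have h2 : wI N a y - z - (a * y - z) = wI N a y - a * y := by ring
      rw [h2]
      exact h1
    simp only [hmod] at hpos
    have h1 : ∑ l, (a * e' (τ l) - ∑ j, x j) % (N : ℤ) = ∑ l, (a * e' l - ∑ j, x j) % (N : ℤ) :=
      Equiv.sum_comp τ (fun l => (a * e' l - ∑ j, x j) % (N : ℤ))
    have h2 : ∀ j, ∑ l, (a * e j (σ j l) - x j) % (N : ℤ) = ∑ l, (a * e j l - x j) % (N : ℤ) :=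
      fun j => Equiv.sum_comp (σ j) (fun l => (a * e j l - x j) % (N : ℤ))
    rw [h1, Finset.sum_congr rfl fun j _ => h2 j] at hpos
    exact hpos
  · intro q κ s hq
    by_contra hcon
    push Not at hcon
    apply hno
    have hw : ∀ j l, wt a (lam j l) = (wI N a (e j l) : ℚ) / N := fun j l => by
      rw [← wt_wI hN (he j l)]; field_simp
    have hw' : ∀ l, wt a (ps l) = (wI N a (e' l) : ℚ) / N := fun l => by
      rw [← wt_wI hN (hep l)]; field_simp
    have hq' : ∑ j, ∑ l, wt a (lam j (σ j l)) - ∑ l, wt a (ps (τ l)) + ∑ j, ((κ j : ℕ) : ℚ) =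
        q * n + (s : ℕ) := by
      have h1 : ∀ j, ∑ l, wt a (lam j (σ j l)) = ∑ l, wt a (lam j l) := fun j =>
        Equiv.sum_comp (σ j) (fun l => wt a (lam j l))
      have h2 : ∑ l, wt a (ps (τ l)) = ∑ l, wt a (ps l) :=
        Equiv.sum_comp τ (fun l => wt a (ps l))
      rw [Finset.sum_congr rfl (fun j _ => h1 j), h2]
      simp only [hw, hw']
      have h3 := congrArg (fun x : ℤ => (x : ℚ)) hM
      have h4 := congrArg (fun x : ℤ => (x : ℚ)) hq
      push_cast at h3 h4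
      simp only [← Finset.sum_div]
      rw [← sub_div, h3]
      have h5 : (M : ℚ) * N / N = M := by field_simp
      rw [h5]
      linarith
    have hlt : q + wt a (ps (τ s)) < ∑ j, wt a (lam j (σ j (κ j))) := by
      simp only [hw, hw']
      rw [← Finset.sum_div, lt_div_iff₀ hNq]
      have h3 : ((q * N + wI N a (e' (τ s)) : ℤ) : ℚ) <
          ((∑ j, wI N a (e j (σ j (κ j))) : ℤ) : ℚ) := by
        exact_mod_cast hcon
      push_cast at h3
      calc ((q : ℚ) + (wI N a (e' (τ s)) : ℚ) / N) * N = q * N + wI N a (e' (τ s)) := by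
            field_simp
        _ < _ := h3
    have hE' : HasExps α Q (fun j l => lam j (σ j l)) (fun l => phi (τ l)) := by
      constructor
      · intro j
        rw [hE.1 j]
        congr 1
        exact (Equiv.prod_comp (σ j) (fun l => (X - C ((lam j l : ℚ) : F)))).symm
      · rw [hE.2]
        exact (Equiv.prod_comp τ (fun l => (X - C ((phi l : ℚ) : F)))).symm
    exact main_field hm hn b hb α Q hF (fun j l => lam j (σ j l)) (fun l => phi (τ l)) hE' N hN
      (fun j l => ⟨_, he j _⟩) (fun l => ⟨_, hf _⟩) a hσ hτ κ s q hq' hlt.le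
      (fun heq => absurd heq hlt.ne)

/-- The degree inequality. -/
theorem op_crit {F : Type u} [Field F] [CharZero F] {m n : ℕ} (hm : 0 < m) (hn : 0 < n)
    (b : Fin (n + 1) → ℤ[X]) (hb : b (Fin.last n) ≠ 0) (α : Fin m → F) (Q : Fin (n + 1) → F[X])
    (hF : IsFuchs b α Q) (lam : Fin m → Fin n → ℚ) (phi : Fin n → ℚ) (hE : HasExps α Q lam phi)
    (N : ℕ) (hN : 0 < N) (e : Option (Fin m) → Fin n → ℤ)
    (he : ∀ j l, (N : ℚ) * lam j l = e (some j) l) (hf : ∀ l, (N : ℚ) * phi l = (-e none l : ℤ))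
    (a : ℤ) (hno : ¬ OpBad b N a) (x : Option (Fin m) → ℤ) (hx : 1 ≤ ∑ i, x i)
    (Z : Option (Fin m) → Fin n → ℤ) (hZ : ∀ i l, (N : ℤ) ∣ Z i l - a * e i l)
    (hxZ : ∀ i l, x i ≤ Z i l) : (n : ℤ) * N ≤ ∑ i, ∑ l, Z i l := by
  have hN0 : (0 : ℤ) < N := by exact_mod_cast hN
  have h1 := op_ineq hm hn b hb α Q hF lam phi hE N hN (fun j => e (some j)) (fun l => -e none l)
    he hf a hno (fun j => x (some j))
  rw [Fintype.sum_option] at hx ⊢
  set Y : ℤ := ∑ j : Fin m, x (some j) with hY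
  have h2 : ∑ l, (-(Z none l) - Y + N) ≤
      ∑ l, (a * (-e none l + N * (((n - 1) * (m - 1) : ℕ) : ℤ)) - Y) % (N : ℤ) := by
    refine sum_le_sum fun l _ => le_emod hN0 ?_ ?_
    · obtain ⟨z, hz⟩ := hZ none l
      exact ⟨z + a * (((n - 1) * (m - 1) : ℕ) : ℤ), by linear_combination hz⟩
    · have := hxZ none l
      linarith
  have h3 : ∑ j : Fin m, ∑ l, (a * e (some j) l - x (some j)) % (N : ℤ) ≤
      ∑ j : Fin m, ∑ l, (Z (some j) l - x (some j)) :=
    sum_le_sum fun j _ => sum_le_sum fun l _ => emod_le hN0 (hZ _ l) (hxZ _ l)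
  have h4 := h2.trans (h1.trans h3)
  simp only [sum_add_distrib, sum_sub_distrib, sum_neg_distrib, sum_const, card_univ,
    Fintype.card_fin, nsmul_eq_mul] at h4 ⊢
  rw [← mul_sum, ← hY] at h4
  linarith

open Pool.Agent.W432.HK Pool.Agent.Y227.SO

/-- Operators. -/
theorem operators {m n : ℕ} (hm : 0 < m) (hn : 2 ≤ n) (b : Fin (n + 1) → ℤ[X])
    (α : Fin m → AlgebraicClosure ℚ) (lam : Option (Fin m) → Fin n → ℚ) (N : ℕ) (hN : 0 < N)
    (hF : FuchsianWith b α (fun j => lam (some j)) (fun l => -lam none l))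
    (hNlam : ∀ i l, ∃ z : ℤ, (N : ℚ) * lam i l = z)
    (S : Finset (Option (Fin m))) (hS0 : S.Nonempty)
    (hS : ∀ i ∉ S, ∀ l l', ∃ z : ℤ, lam i l - lam i l' = z) (K Q : ℕ)
    (hK : K = 4 * n ^ 6 * S.card ^ 3) (hQ : Q = 8 * (K + 1) ^ (n * S.card)) :
    Rel lam N K Q ∨ ((∃ (V : Finset (ZMod N)ˣ) (P₀ : ℕ), N.totient ≤ Q * V.card ∧
      ∀ p : ℕ, P₀ < p → (∃ v ∈ V, ((p : ℕ) : ZMod N) = ((v : (ZMod N)ˣ) : ZMod N)) →
        ∀ _hp : Fact p.Prime, ¬ FullMod b p) ∧ ¬ Cond b) := by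
  classical
  have : NeZero N := ⟨hN.ne'⟩
  have hQ0 : 0 < Q := by rw [hQ]; positivity
  rcases rel_or hNlam K Q with h | hrel
  · exact Or.inl h
  right
  choose e he using hNlam
  obtain ⟨hb, R, hFu, hE⟩ := hF
  have hf : ∀ l, (N : ℚ) * -lam none l = ((-e none l : ℤ) : ℚ) := fun l => by
    push_cast
    rw [← he]
    ring
  have hsum0 : (N : ℤ) ∣ ∑ i, ∑ l, e i l := by
    have hfu := fuchs_int hm (by omega : 0 < n) hFu hE (N := N) (mu := fun j => e (some j))
      (mu' := fun l => -e none l) (fun j l => he _ _) hf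
    rw [Fintype.sum_option]
    have h1 : ∑ l, e none l + ∑ j, ∑ l, e (some j) l =
        ∑ _l : Fin n, (N : ℤ) * (((n - 1) * (m - 1) : ℕ) : ℤ) -
          N * ∑ i, ((cw m n i : ℕ) : ℤ) := by
      rw [sum_add_distrib, sum_neg_distrib] at hfu
      linarith
    rw [h1]
    exact dvd_sub (dvd_sum fun l _ => Dvd.intro _ rfl) (Dvd.intro _ rfl)
  set U : Finset (ZMod N)ˣ := univ.filter fun u => OpBad b N (((u : ZMod N).val : ℕ) : ℤ) with hU
  have hB := dichotomy hn e he hsum0 S hS0 hS hK hQ hrel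
    ((unitSet N).filter fun a => OpBad b N a) (fun a ha haB x hx Z hZ hxZ => by
      have hno : ¬ OpBad b N a := fun h => haB (mem_filter.2 ⟨ha, h⟩)
      exact op_crit hm (by omega) b hb α R hFu _ _ hE N hN e (fun j l => he _ _) hf a hno x hx Z
        hZ hxZ)
  have hcard : ((unitSet N).filter fun a => OpBad b N a).card ≤ U.card := by
    have h1 : ((unitSet N).filter fun a => OpBad b N a) ⊆
        U.image fun u : (ZMod N)ˣ => ((u : ZMod N).val : ℤ) := by
      intro a ha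
      rw [mem_filter] at ha
      obtain ⟨ha1, ha2⟩ := ha
      unfold unitSet at ha1
      rw [mem_image] at ha1
      obtain ⟨u, -, rfl⟩ := ha1
      exact mem_image.2 ⟨u, mem_filter.2 ⟨mem_univ _, ha2⟩, rfl⟩
    exact (card_le_card h1).trans card_image_le
  have hden : N.totient ≤ Q * U.card := hB.trans (Nat.mul_le_mul_left Q hcard)
  have hbad : ∀ u ∈ U, ∃ P : ℕ, ∀ p : ℕ, P < p → (N : ℤ) ∣ (((u : ZMod N).val : ℕ) : ℤ) * p + 1 →
      ∀ _hp : Fact p.Prime, ¬ FullMod b p := fun u hu => (mem_filter.1 hu).2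
  refine ⟨?_, ?_⟩
  · choose! P hP using hbad
    refine ⟨U.image (fun u => -u⁻¹), U.sup P, ?_, ?_⟩
    · rw [Finset.card_image_of_injective]
      · exact hden
      · intro u v huv
        have h1 : -u⁻¹ = -v⁻¹ := huv
        exact inv_injective (neg_injective h1)
    · rintro p hpP ⟨v, hv, hpv⟩ hp
      obtain ⟨u, hu, rfl⟩ := Finset.mem_image.mp hv
      refine hP u hu p (lt_of_le_of_lt (Finset.le_sup hu) hpP) ?_ hp
      rw [← ZMod.intCast_zmod_eq_zero_iff_dvd]
      push_cast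
      rw [ZMod.natCast_zmod_val, hpv, Units.val_neg, mul_neg, Units.mul_inv, neg_add_cancel]
  · intro hc
    have hpos : 0 < U.card := by
      by_contra hcon
      push Not at hcon
      have h1 : U.card = 0 := by omega
      rw [h1, mul_zero] at hden
      have := Nat.totient_pos.2 hN
      omega
    obtain ⟨u, hu⟩ := Finset.card_pos.1 hpos
    obtain ⟨P₀, hP⟩ := hbad u hu
    obtain ⟨p, hp1, hp2, hp3, hp4⟩ := cond_infinite hc hN
      (Nat.isCoprime_iff_coprime.2 (ZMod.val_coe_unit_coprime u)) P₀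
    exact hP p hp1 hp2 hp3 hp4

end Pool.Agent.Helper104.ER
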