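import Pool.Agent.Helper104.ER.Sums

set_option autoImplicit false

/-!
Many bad units.
-/

namespace Pool.Agent.Helper104.ER

open Finset Real Pool.Agent.Helper104.PCV

lemma exp_bound {r s K : ℕ} (hr : 2 ≤ r) (hs : 1 ≤ s) (hK : K = 4 * r ^ 6 * s ^ 3) :
    (1 - 1 / ((r : ℝ) ^ 4 * s)) ^ K ≤ 1 / (2 * ((K : ℝ) + 1) ^ (r * s)) := by
  have hr2 : (2 : ℝ) ≤ r := by exact_mod_cast hr
  have hs1 : (1 : ℝ) ≤ s := by exact_mod_cast hs
  have hr0 : (0 : ℝ) < r := by linarith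
  have hs0 : (0 : ℝ) < s := by linarith
  set m : ℝ := (r : ℝ) * s with hm
  have hm2 : 2 ≤ m := by nlinarith
  have hC1 : (1 : ℝ) ≤ (r : ℝ) ^ 4 * s := by
    have : (1 : ℝ) ≤ (r : ℝ) ^ 4 := one_le_pow₀ (by linarith)
    nlinarith
  have h0 : 0 ≤ 1 - 1 / ((r : ℝ) ^ 4 * s) := by
    rw [sub_nonneg, div_le_one (by positivity)]
    exact hC1
  have h1 : (1 - 1 / ((r : ℝ) ^ 4 * s)) ^ K ≤ exp (-(4 * m ^ 2)) := by
    have h2 : 1 - 1 / ((r : ℝ) ^ 4 * s) ≤ exp (-(1 / ((r : ℝ) ^ 4 * s))) := by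
      have := add_one_le_exp (-(1 / ((r : ℝ) ^ 4 * s)))
      linarith
    refine (pow_le_pow_left₀ h0 h2 K).trans (le_of_eq ?_)
    rw [← exp_nat_mul]
    congr 1
    rw [hK, hm]
    push_cast
    field_simp
  refine h1.trans ?_
  have hK5 : (K : ℝ) + 1 ≤ exp (3 * m) := by
    have h2 : (K : ℝ) + 1 ≤ 5 * m ^ 6 := by
      have h3 : (K : ℝ) = 4 * r ^ 6 * s ^ 3 := by rw [hK]; push_cast; ring
      have h4 : (s : ℝ) ^ 3 ≤ s ^ 6 := pow_le_pow_right₀ hs1 (by norm_num)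
      have h5 : (1 : ℝ) ≤ m ^ 6 := one_le_pow₀ (by linarith)
      have h6 : (4 : ℝ) * r ^ 6 * s ^ 3 ≤ 4 * r ^ 6 * s ^ 6 := by gcongr
      have h7 : m ^ 6 = (r : ℝ) ^ 6 * s ^ 6 := by rw [hm]; ring
      rw [h3]
      linarith
    have h3 : m / 2 ≤ exp (m / 2 - 1) := by
      have := add_one_le_exp (m / 2 - 1)
      linarith
    have h4 : (m / 2) ^ 6 ≤ exp (m / 2 - 1) ^ 6 := pow_le_pow_left₀ (by linarith) h3 6
    have h5 : exp (m / 2 - 1) ^ 6 = exp (3 * m - 6) := by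
      rw [← exp_nat_mul]
      congr 1
      push_cast
      ring
    have h6 : (320 : ℝ) ≤ exp 6 := by
      have h7 : exp 6 = exp 1 ^ 6 := by
        rw [← exp_nat_mul]
        norm_num
      have h8 : (2.7 : ℝ) ≤ exp 1 := by
        have := exp_one_gt_d9
        linarith
      have h9 : (2.7 : ℝ) ^ 6 ≤ exp 1 ^ 6 := pow_le_pow_left₀ (by norm_num) h8 6
      rw [h7]
      refine le_trans ?_ h9
      norm_num
    have h7 : exp (3 * m) = exp 6 * exp (3 * m - 6) := by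
      rw [← exp_add]
      congr 1
      ring
    have h8 : 5 * m ^ 6 = 320 * (m / 2) ^ 6 := by ring
    rw [h7]
    refine h2.trans ?_
    rw [h8]
    rw [h5] at h4
    have := exp_pos (3 * m - 6)
    calc 320 * (m / 2) ^ 6 ≤ 320 * exp (3 * m - 6) := by gcongr
      _ ≤ exp 6 * exp (3 * m - 6) := by gcongr
  have h2 : ((K : ℝ) + 1) ^ (r * s) ≤ exp (3 * m ^ 2) := by
    refine (pow_le_pow_left₀ (by positivity) hK5 _).trans (le_of_eq ?_)
    rw [← exp_nat_mul]
    congr 1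
    push_cast
    rw [hm]
    ring
  have h3 : (2 : ℝ) ≤ exp (m ^ 2) := by
    have := add_one_le_exp (m ^ 2)
    nlinarith
  have h4 : 2 * ((K : ℝ) + 1) ^ (r * s) ≤ exp (4 * m ^ 2) := by
    have h5 : exp (4 * m ^ 2) = exp (m ^ 2) * exp (3 * m ^ 2) := by
      rw [← exp_add]
      congr 1
      ring
    rw [h5]
    gcongr
  rw [exp_neg, one_div]
  exact inv_anti₀ (by positivity) h4

variable {ι : Type*} [Fintype ι] [DecidableEq ι] {r : ℕ}

/-- Many units are bad, if there is no relation. -/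
theorem many_bad (hr : 2 ≤ r) {lam : ι → Fin r → ℚ} {N : ℕ} [NeZero N]
    (hN : ∀ i l, ∃ z : ℤ, (N : ℚ) * lam i l = z) (S : Finset ι) (hS0 : 1 ≤ S.card)
    (hS : ∀ i ∉ S, ∀ l l', ∃ z : ℤ, lam i l - lam i l' = z) {K Q : ℕ}
    (hK : K = 4 * r ^ 6 * S.card ^ 3) (hQ : Q = 8 * (K + 1) ^ (r * S.card))
    (hrel : NoRel lam K Q) (B : Finset ℤ)
    (hgood : ∀ a ∈ unitSet N, a ∉ B → 1 - (zz lam a).re ≤
      (r : ℝ) ^ 4 * S.card * (1 - ‖zz lam a‖ ^ 2)) : N.totient ≤ Q * B.card := by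
  have hr0 : 0 < r := by omega
  have hr2 : (2 : ℝ) ≤ r := by exact_mod_cast hr
  have hs1 : (1 : ℝ) ≤ S.card := by exact_mod_cast hS0
  have hQ0 : 0 < Q := by rw [hQ]; positivity
  have hQR : (0 : ℝ) < Q := by exact_mod_cast hQ0
  set C : ℝ := (r : ℝ) ^ 4 * S.card with hC
  have hC1 : 1 ≤ C := by
    have : (1 : ℝ) ≤ (r : ℝ) ^ 4 := one_le_pow₀ (by linarith)
    rw [hC]
    nlinarith
  have hC0 : 0 < C := by linarith
  set φ : ℝ := ((N.totient : ℕ) : ℝ) with hφ
  have hφ0 : 0 ≤ φ := by positivity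
  set w : ℕ → ℝ := fun k => ∑ a ∈ unitSet N, ‖zz lam a‖ ^ (2 * k) with hw
  have hz1 : ∀ a, ‖zz lam a‖ ≤ 1 := fun a => norm_zz_le lam hr0 a
  have hz2 : ∀ a, ‖zz lam a‖ ^ 2 ≤ 1 := fun a => by
    have := norm_nonneg (zz lam a)
    have := hz1 a
    nlinarith
  have hzre : ∀ a, 1 - (zz lam a).re ≤ 2 := fun a => by
    have := Complex.abs_re_le_norm (zz lam a)
    have := neg_abs_le (zz lam a).re
    have := hz1 a
    linarith
  set E : ℝ := φ / Q + 2 * B.card with hE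
  have hE0 : 0 ≤ E := by positivity
  have hrec : ∀ k, k ≤ K → w (k + 1) ≤ (1 - 1 / C) * w k + E / C := by
    intro k hk
    have h1 : ∀ a ∈ unitSet N, ‖zz lam a‖ ^ (2 * k) * (1 - (zz lam a).re) ≤
        C * (‖zz lam a‖ ^ (2 * k) * (1 - ‖zz lam a‖ ^ 2)) + if a ∈ B then 2 else 0 := by
      intro a ha
      have hp0 : 0 ≤ ‖zz lam a‖ ^ (2 * k) := by positivity
      have hp1 : ‖zz lam a‖ ^ (2 * k) ≤ 1 := pow_le_one₀ (norm_nonneg _) (hz1 a)
      split_ifs with haB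
      · have h2 : ‖zz lam a‖ ^ (2 * k) * (1 - (zz lam a).re) ≤ 1 * 2 := by
          have h3 : ‖zz lam a‖ ^ (2 * k) * (1 - (zz lam a).re) ≤ ‖zz lam a‖ ^ (2 * k) * 2 := by
            gcongr
            exact hzre a
          linarith
        have h3 : 0 ≤ C * (‖zz lam a‖ ^ (2 * k) * (1 - ‖zz lam a‖ ^ 2)) := by
          have := hz2 a
          have h4 : 0 ≤ 1 - ‖zz lam a‖ ^ 2 := by linarith
          positivity
        linarith
      · have h2 := mul_le_mul_of_nonneg_left (hgood a ha haB) hp0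
        rw [add_zero]
        refine h2.trans (le_of_eq ?_)
        ring
    have h2 := sum_le_sum h1
    rw [sum_add_distrib, ← mul_sum] at h2
    have h3 : ∑ a ∈ unitSet N, ‖zz lam a‖ ^ (2 * k) * (1 - ‖zz lam a‖ ^ 2) = w k - w (k + 1) := by
      rw [hw]
      beta_reduce
      rw [← sum_sub_distrib]
      refine sum_congr rfl fun a _ => ?_
      ring
    have h4 : ∑ a ∈ unitSet N, (if a ∈ B then (2 : ℝ) else 0) ≤ 2 * B.card := by
      rw [← sum_filter, sum_const, nsmul_eq_mul]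
      have h5 : ((unitSet N).filter (· ∈ B)).card ≤ B.card := card_le_card fun a ha =>
        (mem_filter.1 ha).2
      have h6 : ((((unitSet N).filter (· ∈ B)).card : ℕ) : ℝ) ≤ B.card := by exact_mod_cast h5
      linarith
    have h5 : ∑ a ∈ unitSet N, ‖zz lam a‖ ^ (2 * k) * (1 - (zz lam a).re) ≥ w k - φ / Q := by
      have h6 := odd_moment hr0 hN hQ0 hrel hk
      have h7 : (∑ a ∈ unitSet N, zz lam a ^ (k + 1) * (starRingEnd ℂ) (zz lam a) ^ k).re =
          ∑ a ∈ unitSet N, ‖zz lam a‖ ^ (2 * k) * (zz lam a).re := by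
        rw [Complex.re_sum]
        refine sum_congr rfl fun a _ => ?_
        have h8 : zz lam a ^ (k + 1) * (starRingEnd ℂ) (zz lam a) ^ k =
            ((‖zz lam a‖ ^ (2 * k) : ℝ) : ℂ) * zz lam a := by
          rw [pow_succ, mul_right_comm, ← mul_pow, Complex.mul_conj']
          push_cast
          rw [← pow_mul]
        rw [h8, Complex.re_ofReal_mul]
      have h8 := (Complex.re_le_norm
        (∑ a ∈ unitSet N, zz lam a ^ (k + 1) * (starRingEnd ℂ) (zz lam a) ^ k)).trans h6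
      rw [h7] at h8
      have h9 : ∑ a ∈ unitSet N, ‖zz lam a‖ ^ (2 * k) * (1 - (zz lam a).re) =
          w k - ∑ a ∈ unitSet N, ‖zz lam a‖ ^ (2 * k) * (zz lam a).re := by
        rw [hw]
        beta_reduce
        rw [← sum_sub_distrib]
        exact sum_congr rfl fun a _ => by ring
      rw [h9]
      linarith
    rw [h3] at h2
    have h6 : C * w (k + 1) ≤ C * ((1 - 1 / C) * w k + E / C) := by
      have h7 : C * ((1 - 1 / C) * w k + E / C) = C * w k - w k + E := by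
        field_simp
      rw [h7, hE]
      linarith
    exact le_of_mul_le_mul_left h6 hC0
  have h1C : 0 ≤ 1 - 1 / C := by
    rw [sub_nonneg, div_le_one hC0]
    exact hC1
  have hind : ∀ k, k ≤ K → w k ≤ E + (1 - 1 / C) ^ k * φ := by
    intro k
    induction k with
    | zero =>
      intro _
      have : w 0 = φ := by
        rw [hw]
        simp [unitSet_card, hφ]
      rw [this]
      simp [hE0]
    | succ k ih =>
      intro hk
      refine (hrec k (by omega)).trans ?_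
      have h1 := mul_le_mul_of_nonneg_left (ih (by omega)) h1C
      refine (add_le_add_left h1 _).trans (le_of_eq ?_)
      rw [pow_succ]
      field_simp
      ring
  have hK1 := hind K le_rfl
  have hlow := even_moment hr0 hN hQ0 hrel S hS
  have hexp := exp_bound hr hS0 hK
  rw [← hC] at hexp
  have hH : (Q : ℝ) = 8 * ((K : ℝ) + 1) ^ (r * S.card) := by rw [hQ]; push_cast; ring
  have hHpos : 0 < ((K : ℝ) + 1) ^ (r * S.card) := by positivity
  set H : ℝ := ((K : ℝ) + 1) ^ (r * S.card) with hHd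
  have h1 : φ * (1 / H - 1 / Q) ≤ φ / Q + 2 * B.card + 1 / (2 * H) * φ := by
    have h2 : (1 - 1 / C) ^ K * φ ≤ 1 / (2 * H) * φ := mul_le_mul_of_nonneg_right hexp hφ0
    have h3 : φ * (1 / H - 1 / Q) ≤ w K := hlow
    linarith
  have h2 : φ / H = 8 * (φ / Q) := by
    rw [hH]
    field_simp
  have h3 : φ * (1 / H - 1 / Q) = φ / H - φ / Q := by ring
  have h4 : 1 / (2 * H) * φ = φ / H / 2 := by
    field_simp
  rw [h3, h4, h2] at h1
  have h5 : φ / Q ≤ B.card := by linarith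
  rw [div_le_iff₀ hQR] at h5
  have h6 : ((N.totient : ℕ) : ℝ) ≤ ((Q * B.card : ℕ) : ℝ) := by
    push_cast
    linarith
  exact_mod_cast h6

end Pool.Agent.Helper104.ER
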