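import Pool.Agent.Helper104.ER.Var
import Pool.Agent.Helper104.PCV.Near

set_option autoImplicit false

/-!
Moments of the products of means over the units modulo `N`.
-/

namespace Pool.Agent.Helper104.ER

open Finset Real Pool.Agent.Helper104.PCV

lemma e1_pow_one {q : ℚ} {k : ℕ} (h : e1 (q : ℝ) ^ k = 1) : q.den ∣ k := by
  rw [← e1_nat_mul, e1_eq_one_iff] at h
  obtain ⟨z, hz⟩ := h
  have h6 : (k : ℚ) * q = (z : ℚ) := by exact_mod_cast hz
  have h8 : (q.den : ℤ) ∣ (k : ℤ) * q.num := by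
    have h9 : (k : ℚ) * q.num = (z : ℚ) * q.den := by
      rw [← h6, ← Rat.mul_den_eq_num q]
      ring
    have h10 : (k : ℤ) * q.num = z * q.den := by exact_mod_cast h9
    rw [h10]
    exact dvd_mul_left _ _
  have h11 : (q.den : ℤ) ∣ (k : ℤ) := q.isCoprime_num_den.symm.dvd_of_dvd_mul_right h8
  exact_mod_cast h11

/-- A sum over the units. -/
lemma sum_unit_e1 {N : ℕ} [NeZero N] {q : ℚ} (h : ∃ z : ℤ, (N : ℚ) * q = z) {C : ℝ} (hC0 : 0 < C)
    (hC : ¬ Squarefree q.den ∨ C ≤ (q.den.totient : ℝ)) :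
    ‖∑ a ∈ unitSet N, e1 (a * (q : ℝ))‖ ≤ N.totient / C := by
  have h1 : ∑ a ∈ unitSet N, e1 (a * (q : ℝ)) =
      ∑ u : (ZMod N)ˣ, e1 (q : ℝ) ^ (u : ZMod N).val := by
    unfold unitSet
    rw [sum_image (unitSet_inj N).injOn]
    refine sum_congr rfl fun u _ => ?_
    rw [← e1_nat_mul]
    simp
  have h2 : e1 (q : ℝ) ^ N = 1 := by
    rw [← e1_nat_mul, e1_eq_one_iff]
    obtain ⟨z, hz⟩ := h
    exact ⟨z, by exact_mod_cast hz⟩
  have h4 : q.den ∣ orderOf (e1 (q : ℝ)) := e1_pow_one (pow_orderOf_eq_one _)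
  have hord : 0 < orderOf (e1 (q : ℝ)) := by
    rw [orderOf_pos_iff, isOfFinOrder_iff_pow_eq_one]
    exact ⟨N, Nat.pos_of_ne_zero (NeZero.ne N), h2⟩
  rcases hC with hC | hC
  · rw [h1, sum_units_zero h2 (fun h' => hC (h'.squarefree_of_dvd h4)), norm_zero]
    positivity
  have h3 := norm_sum_units h2
  rw [← h1] at h3
  have h5 : (q.den.totient : ℝ) ≤ (orderOf (e1 (q : ℝ))).totient := by
    exact_mod_cast Nat.le_of_dvd (Nat.totient_pos.2 hord) (Nat.totient_dvd_of_dvd h4)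
  rw [le_div_iff₀ hC0]
  refine le_trans ?_ h3
  exact mul_le_mul_of_nonneg_left (hC.trans h5) (norm_nonneg _)

lemma sum_unit_int {N : ℕ} [NeZero N] {q : ℚ} (h : ∃ z : ℤ, q = z) :
    ∑ a ∈ unitSet N, e1 (a * (q : ℝ)) = N.totient := by
  obtain ⟨z, rfl⟩ := h
  have : ∀ a ∈ unitSet N, e1 ((a : ℝ) * ((z : ℚ) : ℝ)) = 1 := by
    intro a _
    have h1 : (a : ℝ) * ((z : ℚ) : ℝ) = ((a * z : ℤ) : ℝ) := by push_cast; ring
    rw [h1, e1_int]
  rw [sum_congr rfl this, sum_const, unitSet_card, nsmul_eq_mul, mul_one]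

section

variable {ι : Type*} [Fintype ι] [DecidableEq ι] {r : ℕ} (lam : ι → Fin r → ℚ)

/-- the product of the means of the powers -/
noncomputable def zz (a : ℤ) : ℂ := ∏ i, mean fun l => (a : ℝ) * (lam i l : ℝ)

/-- the sum of the values of the choice functions -/
def LL {m : ℕ} (f : Fin m → ι → Fin r) : ℚ := ∑ j, ∑ i, lam i (f j i)

omit [DecidableEq ι] in
lemma norm_zz_le (hr : 0 < r) (a : ℤ) : ‖zz lam a‖ ≤ 1 := by
  unfold zz
  rw [norm_prod]
  exact prod_le_one (fun i _ => norm_nonneg _) fun i _ => norm_mean_le hr _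

lemma zz_pow (a : ℤ) (m : ℕ) : zz lam a ^ m =
    (∑ f : Fin m → ι → Fin r, e1 (a * (LL lam f : ℝ))) / ((r : ℂ) ^ Fintype.card ι) ^ m := by
  unfold zz
  rw [prod_mean, div_pow, Fintype.sum_pow]
  congr 1
  refine sum_congr rfl fun f _ => ?_
  rw [← e1_sum]
  congr 1
  unfold LL
  push_cast
  rw [mul_sum]
  exact sum_congr rfl fun j _ => by rw [mul_sum]

lemma conj_zz_pow (a : ℤ) (m : ℕ) : (starRingEnd ℂ) (zz lam a) ^ m =
    (∑ f : Fin m → ι → Fin r, e1 (-(a * (LL lam f : ℝ)))) / ((r : ℂ) ^ Fintype.card ι) ^ m := by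
  rw [← map_pow, zz_pow, map_div₀, map_pow, map_pow, Complex.conj_natCast, map_sum]
  congr 1
  exact sum_congr rfl fun f _ => (e1_neg _).symm

lemma moment (𝒜 : Finset ℤ) (m k : ℕ) :
    ∑ a ∈ 𝒜, zz lam a ^ m * (starRingEnd ℂ) (zz lam a) ^ k =
      (∑ f : Fin m → ι → Fin r, ∑ g : Fin k → ι → Fin r,
        ∑ a ∈ 𝒜, e1 (a * ((LL lam f - LL lam g : ℚ) : ℝ))) /
          (((r : ℂ) ^ Fintype.card ι) ^ m * ((r : ℂ) ^ Fintype.card ι) ^ k) := by
  have h1 : ∀ a : ℤ, zz lam a ^ m * (starRingEnd ℂ) (zz lam a) ^ k =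
      (∑ f : Fin m → ι → Fin r, ∑ g : Fin k → ι → Fin r,
        e1 (a * ((LL lam f - LL lam g : ℚ) : ℝ))) /
          (((r : ℂ) ^ Fintype.card ι) ^ m * ((r : ℂ) ^ Fintype.card ι) ^ k) := by
    intro a
    rw [zz_pow, conj_zz_pow, div_mul_div_comm, sum_mul_sum]
    congr 1
    refine sum_congr rfl fun f _ => sum_congr rfl fun g _ => ?_
    rw [← e1_add]
    congr 1
    push_cast
    ring
  rw [sum_congr rfl fun a _ => h1 a, ← sum_div, sum_comm]
  congr 1
  refine sum_congr rfl fun f _ => ?_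
  rw [sum_comm]

/-- the relation of two families of choice functions -/
def hh {m k : ℕ} (f : Fin m → ι → Fin r) (g : Fin k → ι → Fin r) (i : ι) (l : Fin r) : ℤ :=
  (∑ j, if f j i = l then 1 else 0) - ∑ j, if g j i = l then 1 else 0

omit [Fintype ι] [DecidableEq ι] in
lemma sum_hh {m k : ℕ} (f : Fin m → ι → Fin r) (g : Fin k → ι → Fin r) (i : ι) :
    ∑ l, hh f g i l = (m : ℤ) - k := by
  unfold hh
  rw [sum_sub_distrib, sum_comm, sum_comm (f := fun l j => if g j i = l then (1 : ℤ) else 0)]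
  simp

omit [Fintype ι] [DecidableEq ι] in
lemma abs_hh {m k : ℕ} (f : Fin m → ι → Fin r) (g : Fin k → ι → Fin r) (i : ι) :
    ∑ l, |hh f g i l| ≤ (m : ℤ) + k := by
  have h1 : ∀ l, |hh f g i l| ≤ (∑ j, if f j i = l then (1 : ℤ) else 0) +
      ∑ j, if g j i = l then (1 : ℤ) else 0 := by
    intro l
    have h2 : (0 : ℤ) ≤ ∑ j, if f j i = l then (1 : ℤ) else 0 :=
      sum_nonneg fun j _ => by split_ifs <;> norm_num
    have h3 : (0 : ℤ) ≤ ∑ j, if g j i = l then (1 : ℤ) else 0 :=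
      sum_nonneg fun j _ => by split_ifs <;> norm_num
    unfold hh
    rw [abs_le]
    constructor <;> linarith
  refine (sum_le_sum fun l _ => h1 l).trans (le_of_eq ?_)
  rw [sum_add_distrib, sum_comm, sum_comm (f := fun l j => if g j i = l then (1 : ℤ) else 0)]
  simp

omit [DecidableEq ι] in
lemma sum_hh_mul {m k : ℕ} (f : Fin m → ι → Fin r) (g : Fin k → ι → Fin r) :
    ∑ i, ∑ l, (hh f g i l : ℚ) * lam i l = LL lam f - LL lam g := by
  have h1 : ∀ {m : ℕ} (f : Fin m → ι → Fin r), LL lam f =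
      ∑ i, ∑ l, ((∑ j, if f j i = l then (1 : ℤ) else 0 : ℤ) : ℚ) * lam i l := by
    intro m f
    unfold LL
    rw [sum_comm]
    refine sum_congr rfl fun i _ => ?_
    push_cast
    simp only [sum_mul]
    rw [sum_comm]
    refine sum_congr rfl fun j _ => ?_
    simp
  rw [h1 f, h1 g, ← sum_sub_distrib]
  refine sum_congr rfl fun i _ => ?_
  rw [← sum_sub_distrib]
  refine sum_congr rfl fun l _ => ?_
  unfold hh
  push_cast
  ring

/-- There are no short relations with small denominators. -/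
def NoRel (K Q : ℕ) : Prop :=
  ∀ (ε : ℤ) (h : ι → Fin r → ℤ), (ε = 0 ∨ ε = 1) → (∀ i, ∑ l, h i l = ε) →
    (∀ i, ∑ l, |h i l| ≤ 2 * K + 1) →
      (ε = 0 → (∑ i, ∑ l, (h i l : ℚ) * lam i l).den ≠ 1) →
        ¬ Squarefree (∑ i, ∑ l, (h i l : ℚ) * lam i l).den ∨
          Q ≤ (∑ i, ∑ l, (h i l : ℚ) * lam i l).den.totient

variable {lam}

omit [DecidableEq ι] in
lemma den_LL {N : ℕ} (hN : ∀ i l, ∃ z : ℤ, (N : ℚ) * lam i l = z) {m : ℕ}
    (f : Fin m → ι → Fin r) : ∃ z : ℤ, (N : ℚ) * LL lam f = z := by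
  choose e he using hN
  refine ⟨∑ j, ∑ i, e i (f j i), ?_⟩
  unfold LL
  push_cast
  rw [mul_sum]
  refine sum_congr rfl fun j _ => ?_
  rw [mul_sum]
  exact sum_congr rfl fun i _ => he _ _

/-- The bound for the odd moments. -/
theorem odd_moment (hr : 0 < r) {N : ℕ} [NeZero N] (hN : ∀ i l, ∃ z : ℤ, (N : ℚ) * lam i l = z)
    {K Q : ℕ} (hQ : 0 < Q) (hrel : NoRel lam K Q) {k : ℕ} (hk : k ≤ K) :
    ‖∑ a ∈ unitSet N, zz lam a ^ (k + 1) * (starRingEnd ℂ) (zz lam a) ^ k‖ ≤ N.totient / Q := by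
  have hQ0 : (0 : ℝ) < Q := by exact_mod_cast hQ
  have hP : (0 : ℝ) < (r : ℝ) ^ Fintype.card ι := by
    have : (0 : ℝ) < r := by exact_mod_cast hr
    positivity
  have h1 : ∀ (f : Fin (k + 1) → ι → Fin r) (g : Fin k → ι → Fin r),
      ‖∑ a ∈ unitSet N, e1 (a * ((LL lam f - LL lam g : ℚ) : ℝ))‖ ≤ N.totient / Q := by
    intro f g
    refine sum_unit_e1 ?_ hQ0 ?_
    · obtain ⟨z, hz⟩ := den_LL hN f
      obtain ⟨w, hw⟩ := den_LL hN g
      exact ⟨z - w, by push_cast; rw [mul_sub, hz, hw]⟩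
    · have h2 := hrel 1 (hh f g) (Or.inr rfl) (fun i => by rw [sum_hh]; push_cast; ring)
        (fun i => (abs_hh f g i).trans (by push_cast; omega)) (fun h => absurd h one_ne_zero)
      rw [sum_hh_mul] at h2
      exact h2.imp_right fun h => by exact_mod_cast h
  rw [moment, norm_div]
  simp only [norm_mul, norm_pow, Complex.norm_natCast]
  rw [div_le_iff₀ (by positivity)]
  refine (norm_sum_le _ _).trans ((sum_le_sum fun f _ => (norm_sum_le _ _).trans
    (sum_le_sum fun g _ => h1 f g)).trans (le_of_eq ?_))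
  simp only [sum_const, card_univ, Fintype.card_pi, Fintype.card_fin, prod_const, nsmul_eq_mul]
  push_cast
  ring

omit [DecidableEq ι] in
/-- Families of choice functions with the same histograms. -/
lemma int_of_hist {S : Finset ι} (hS : ∀ i ∉ S, ∀ l l', ∃ z : ℤ, lam i l - lam i l' = z) {K : ℕ}
    {f g : Fin K → ι → Fin r} (h : ∀ i ∈ S, ∀ l, (∑ j, if f j i = l then (1 : ℤ) else 0) =
      ∑ j, if g j i = l then (1 : ℤ) else 0) : ∃ z : ℤ, LL lam f - LL lam g = z := by
  classical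
  have h1 : ∀ i, ∃ z : ℤ, ∑ j, (lam i (f j i) - lam i (g j i)) = z := by
    intro i
    by_cases hi : i ∈ S
    · refine ⟨0, ?_⟩
      have h2 : ∀ f : Fin K → ι → Fin r, ∑ j, lam i (f j i) =
          ∑ l, ((∑ j, if f j i = l then (1 : ℤ) else 0 : ℤ) : ℚ) * lam i l := by
        intro f
        push_cast
        simp only [sum_mul]
        rw [sum_comm]
        refine sum_congr rfl fun j _ => ?_
        simp
      rw [sum_sub_distrib, h2 f, h2 g, sum_congr rfl fun l _ => by rw [h i hi l]]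
      simp
    · choose z hz using hS i hi
      refine ⟨∑ j, z (f j i) (g j i), ?_⟩
      push_cast
      exact sum_congr rfl fun j _ => hz _ _
  choose z hz using h1
  refine ⟨∑ i, z i, ?_⟩
  unfold LL
  rw [sum_comm, sum_comm (f := fun j i => lam i (g j i)), ← sum_sub_distrib]
  push_cast
  refine sum_congr rfl fun i _ => ?_
  rw [← hz i, sum_sub_distrib]

/-- The number of pairs with the same histograms. -/
lemma card_pairs (S : Finset ι) (K : ℕ) :
    ((r ^ Fintype.card ι) ^ K) ^ 2 ≤ (K + 1) ^ (r * S.card) *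
      ((univ : Finset ((Fin K → ι → Fin r) × (Fin K → ι → Fin r))).filter fun p =>
        ∀ i ∈ S, ∀ l, (∑ j, if p.1 j i = l then (1 : ℤ) else 0) =
          ∑ j, if p.2 j i = l then (1 : ℤ) else 0).card := by
  classical
  -- the histogram
  let F : (Fin K → ι → Fin r) → (S × Fin r → Fin (K + 1)) := fun f p =>
    ⟨(univ.filter fun j => f j p.1 = p.2).card, Nat.lt_succ_of_le
      ((card_le_univ _).trans (by simp))⟩
  have hF : ∀ f g, F f = F g ↔ ∀ i ∈ S, ∀ l, (∑ j, if f j i = l then (1 : ℤ) else 0) =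
      ∑ j, if g j i = l then (1 : ℤ) else 0 := by
    intro f g
    rw [funext_iff]
    have h1 : ∀ (f : Fin K → ι → Fin r) (i : ι) (l : Fin r),
        (∑ j, if f j i = l then (1 : ℤ) else 0) = ((univ.filter fun j => f j i = l).card : ℤ) := by
      intro f i l
      rw [sum_boole]
    constructor
    · intro h i hi l
      have h2 := h (⟨i, hi⟩, l)
      simp only [F, Fin.mk.injEq] at h2
      rw [h1, h1]
      exact_mod_cast h2
    · rintro h ⟨⟨i, hi⟩, l⟩
      have h2 := h i hi l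
      rw [h1, h1] at h2
      simp only [F, Fin.mk.injEq]
      exact_mod_cast h2
  have h1 : ((univ : Finset ((Fin K → ι → Fin r) × (Fin K → ι → Fin r))).filter fun p =>
        ∀ i ∈ S, ∀ l, (∑ j, if p.1 j i = l then (1 : ℤ) else 0) =
          ∑ j, if p.2 j i = l then (1 : ℤ) else 0).card =
      ∑ c : S × Fin r → Fin (K + 1), (univ.filter fun f => F f = c).card ^ 2 := by
    have h2 : ((univ : Finset ((Fin K → ι → Fin r) × (Fin K → ι → Fin r))).filter fun p =>
        ∀ i ∈ S, ∀ l, (∑ j, if p.1 j i = l then (1 : ℤ) else 0) =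
          ∑ j, if p.2 j i = l then (1 : ℤ) else 0) =
        univ.biUnion fun c : S × Fin r → Fin (K + 1) =>
          (univ.filter fun f => F f = c) ×ˢ (univ.filter fun f => F f = c) := by
      ext ⟨f, g⟩
      simp only [mem_filter, mem_univ, true_and, mem_biUnion, mem_product]
      rw [← hF f g]
      constructor
      · intro h
        exact ⟨F f, rfl, h.symm⟩
      · rintro ⟨c, h3, h4⟩
        rw [h3, h4]
    rw [h2, card_biUnion]
    · exact sum_congr rfl fun c _ => by rw [card_product, sq]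
    · intro c _ c' _ hcc
      change Disjoint _ _
      rw [disjoint_left]
      rintro ⟨f, g⟩ h3 h4
      simp only [mem_product, mem_filter, mem_univ, true_and] at h3 h4
      exact hcc (h3.1.symm.trans h4.1)
  have h2 : ∑ c : S × Fin r → Fin (K + 1), (univ.filter fun f => F f = c).card =
      (r ^ Fintype.card ι) ^ K := by
    rw [← card_eq_sum_card_fiberwise (f := F) (s := univ) (t := univ) fun _ _ => mem_univ _]
    simp
  have h3 : (∑ c : S × Fin r → Fin (K + 1), (univ.filter fun f => F f = c).card) ^ 2 ≤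
      (univ : Finset (S × Fin r → Fin (K + 1))).card *
        ∑ c : S × Fin r → Fin (K + 1), (univ.filter fun f => F f = c).card ^ 2 :=
    sq_sum_le_card_mul_sum_sq
  rw [h2, ← h1] at h3
  refine h3.trans (le_of_eq ?_)
  congr 1
  simp [mul_comm]

/-- The lower bound for the even moment. -/
theorem even_moment (hr : 0 < r) {N : ℕ} [NeZero N] (hN : ∀ i l, ∃ z : ℤ, (N : ℚ) * lam i l = z)
    {K Q : ℕ} (hQ : 0 < Q) (hrel : NoRel lam K Q) (S : Finset ι)
    (hS : ∀ i ∉ S, ∀ l l', ∃ z : ℤ, lam i l - lam i l' = z) :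
    (N.totient : ℝ) * (1 / (K + 1) ^ (r * S.card) - 1 / Q) ≤
      ∑ a ∈ unitSet N, ‖zz lam a‖ ^ (2 * K) := by
  classical
  have hQ0 : (0 : ℝ) < Q := by exact_mod_cast hQ
  have hr' : (0 : ℝ) < r := by exact_mod_cast hr
  set P : ℝ := (r : ℝ) ^ Fintype.card ι with hPd
  have hP : 0 < P := by positivity
  set φ : ℝ := ((N.totient : ℕ) : ℝ) with hφ
  have hφ0 : 0 ≤ φ := by positivity
  have h1 : ((∑ a ∈ unitSet N, ‖zz lam a‖ ^ (2 * K) : ℝ) : ℂ) =
      ∑ a ∈ unitSet N, zz lam a ^ K * (starRingEnd ℂ) (zz lam a) ^ K := by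
    push_cast
    refine sum_congr rfl fun a _ => ?_
    rw [← mul_pow, Complex.mul_conj', pow_mul]
  rw [moment] at h1
  have h2 : (∑ a ∈ unitSet N, ‖zz lam a‖ ^ (2 * K)) * (P ^ K * P ^ K) =
      ∑ f : Fin K → ι → Fin r, ∑ g : Fin K → ι → Fin r,
        (∑ a ∈ unitSet N, e1 (a * ((LL lam f - LL lam g : ℚ) : ℝ))).re := by
    have h3 : (((∑ a ∈ unitSet N, ‖zz lam a‖ ^ (2 * K)) * (P ^ K * P ^ K) : ℝ) : ℂ) =
        ∑ f : Fin K → ι → Fin r, ∑ g : Fin K → ι → Fin r,
          ∑ a ∈ unitSet N, e1 (a * ((LL lam f - LL lam g : ℚ) : ℝ)) := by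
      rw [Complex.ofReal_mul, h1]
      have hP' : (P : ℂ) = (r : ℂ) ^ Fintype.card ι := by rw [hPd]; push_cast; rfl
      push_cast
      rw [hP']
      have : (r : ℂ) ≠ 0 := by exact_mod_cast hr.ne'
      field_simp
    have h4 := congrArg Complex.re h3
    rw [Complex.ofReal_re] at h4
    rw [h4, Complex.re_sum]
    exact sum_congr rfl fun f _ => by rw [Complex.re_sum]
  -- the terms
  set G : Finset ((Fin K → ι → Fin r) × (Fin K → ι → Fin r)) := univ.filter fun p =>
        ∀ i ∈ S, ∀ l, (∑ j, if p.1 j i = l then (1 : ℤ) else 0) =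
          ∑ j, if p.2 j i = l then (1 : ℤ) else 0 with hG
  have h5 : ∀ f g : Fin K → ι → Fin r, (if (f, g) ∈ G then φ else 0) - φ / Q ≤
      (∑ a ∈ unitSet N, e1 (a * ((LL lam f - LL lam g : ℚ) : ℝ))).re := by
    intro f g
    by_cases hint : ∃ z : ℤ, LL lam f - LL lam g = z
    · rw [sum_unit_int hint, Complex.natCast_re]
      have : 0 ≤ φ / Q := by positivity
      split_ifs <;> linarith
    · have hnot : (f, g) ∉ G := by
        intro hmem
        rw [hG, mem_filter] at hmem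
        exact hint (int_of_hist hS hmem.2)
      rw [if_neg hnot]
      have h6 : ‖∑ a ∈ unitSet N, e1 (a * ((LL lam f - LL lam g : ℚ) : ℝ))‖ ≤ φ / Q := by
        refine sum_unit_e1 ?_ hQ0 ?_
        · obtain ⟨z, hz⟩ := den_LL hN f
          obtain ⟨w, hw⟩ := den_LL hN g
          exact ⟨z - w, by push_cast; rw [mul_sub, hz, hw]⟩
        · have h7 := hrel 0 (hh f g) (Or.inl rfl) (fun i => by rw [sum_hh]; push_cast; ring)
            (fun i => (abs_hh f g i).trans (by push_cast; omega)) (fun _ => by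
              rw [sum_hh_mul]
              intro hden
              apply hint
              refine ⟨(LL lam f - LL lam g).num, ?_⟩
              exact (Rat.den_eq_one_iff _).1 hden ▸ rfl)
          rw [sum_hh_mul] at h7
          exact h7.imp_right fun h => by exact_mod_cast h
      have h8 := Complex.abs_re_le_norm (∑ a ∈ unitSet N, e1 (a * ((LL lam f - LL lam g : ℚ) : ℝ)))
      have h9 := neg_abs_le (∑ a ∈ unitSet N, e1 (a * ((LL lam f - LL lam g : ℚ) : ℝ))).re
      linarith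
  have h6 : (G.card : ℝ) * φ - P ^ K * P ^ K * (φ / Q) ≤
      (∑ a ∈ unitSet N, ‖zz lam a‖ ^ (2 * K)) * (P ^ K * P ^ K) := by
    rw [h2]
    refine le_trans (le_of_eq ?_) (sum_le_sum fun f _ => sum_le_sum fun g _ => h5 f g)
    simp only [sum_sub_distrib]
    congr 1
    · rw [← Fintype.sum_prod_type' (f := fun f g => if (f, g) ∈ G then φ else 0)]
      simp
    · simp only [sum_const, card_univ, Fintype.card_pi, Fintype.card_fin, prod_const, nsmul_eq_mul]
      rw [hPd]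
      push_cast
      ring
  have h7 : (P ^ K) ^ 2 ≤ (K + 1 : ℝ) ^ (r * S.card) * G.card := by
    have := card_pairs (r := r) S K
    rw [← hG] at this
    rw [hPd]
    exact_mod_cast this
  have hPK : 0 < P ^ K * P ^ K := by positivity
  have h8 : φ * (1 / (K + 1) ^ (r * S.card) - 1 / Q) * (P ^ K * P ^ K) ≤
      (G.card : ℝ) * φ - P ^ K * P ^ K * (φ / Q) := by
    have e1 : φ * (1 / (K + 1) ^ (r * S.card) - 1 / Q) * (P ^ K * P ^ K) =
        φ * ((P ^ K) ^ 2 / (K + 1) ^ (r * S.card)) - P ^ K * P ^ K * (φ / Q) := by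
      ring
    rw [e1]
    have h9 : (P ^ K) ^ 2 / (K + 1) ^ (r * S.card) ≤ G.card := by
      rw [div_le_iff₀ (by positivity)]
      linarith
    have h10 := mul_le_mul_of_nonneg_left h9 hφ0
    linarith
  exact le_of_mul_le_mul_right (h8.trans h6) hPK

end

end Pool.Agent.Helper104.ER
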