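import Pool.Agent.Helper104.PCV.Kernel
import Mathlib.Analysis.Real.Pi.Bounds

set_option autoImplicit false

/-!
Means of points of the circle.
-/

namespace Pool.Agent.Helper104.ER

open Finset Real Pool.Agent.Helper104.PCV

/-- `exp(2 π i t)` -/
noncomputable def e1 (t : ℝ) : ℂ := ee (2 * t)

lemma norm_e1 (t : ℝ) : ‖e1 t‖ = 1 := norm_ee _

lemma e1_add (s t : ℝ) : e1 (s + t) = e1 s * e1 t := by
  unfold e1; rw [mul_add, ee_add]

lemma e1_zero : e1 0 = 1 := by simp [e1, ee_zero]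

lemma e1_int (z : ℤ) : e1 z = 1 := by
  unfold e1
  rw [ee_eq_one_iff]
  exact ⟨z, rfl⟩

lemma e1_add_int (t : ℝ) (z : ℤ) : e1 (t + z) = e1 t := by
  rw [e1_add, e1_int, mul_one]

lemma e1_eq_one_iff (t : ℝ) : e1 t = 1 ↔ ∃ z : ℤ, t = z := by
  unfold e1
  rw [ee_eq_one_iff]
  constructor
  · rintro ⟨z, hz⟩
    exact ⟨z, by linarith⟩
  · rintro ⟨z, hz⟩
    exact ⟨z, by rw [hz]⟩

lemma e1_neg (t : ℝ) : e1 (-t) = (starRingEnd ℂ) (e1 t) := by
  unfold e1
  rw [conj_ee, mul_neg]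

lemma e1_sum {S : Type*} (s : Finset S) (f : S → ℝ) : e1 (∑ x ∈ s, f x) = ∏ x ∈ s, e1 (f x) := by
  unfold e1
  rw [mul_sum, ee_sum]

lemma e1_nat_mul (n : ℕ) (t : ℝ) : e1 (n * t) = e1 t ^ n := by
  unfold e1
  rw [← ee_nat_mul]
  congr 1
  ring

lemma e1_re (t : ℝ) : (e1 t).re = cos (2 * π * t) := by
  unfold e1 ee
  rw [Complex.exp_ofReal_mul_I_re]
  congr 1
  ring

/-- the mean of the points of the circle given by `φ` -/
noncomputable def mean {r : ℕ} (φ : Fin r → ℝ) : ℂ := (∑ l, e1 (φ l)) / r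

lemma norm_mean_le {r : ℕ} (hr : 0 < r) (φ : Fin r → ℝ) : ‖mean φ‖ ≤ 1 := by
  have hr' : (0 : ℝ) < r := by exact_mod_cast hr
  unfold mean
  rw [norm_div, Complex.norm_natCast, div_le_one hr']
  refine (norm_sum_le _ _).trans ?_
  simp [norm_e1]

lemma norm_mean_sq {r : ℕ} (hr : 0 < r) (φ : Fin r → ℝ) :
    1 - ‖mean φ‖ ^ 2 = (∑ l, ∑ l', (1 - cos (2 * π * (φ l - φ l')))) / r ^ 2 := by
  have hr' : (r : ℝ) ≠ 0 := by exact_mod_cast hr.ne'
  have h1 : ‖∑ l, e1 (φ l)‖ ^ 2 = ∑ l, ∑ l', cos (2 * π * (φ l - φ l')) := by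
    have h2 : ((‖∑ l, e1 (φ l)‖ ^ 2 : ℝ) : ℂ) = ∑ l, ∑ l', e1 (φ l - φ l') := by
      push_cast
      rw [← Complex.mul_conj', map_sum, sum_mul_sum]
      refine sum_congr rfl fun l _ => sum_congr rfl fun l' _ => ?_
      rw [← e1_neg, ← e1_add, sub_eq_add_neg]
    have h3 := congrArg Complex.re h2
    rw [Complex.ofReal_re] at h3
    rw [h3, Complex.re_sum]
    refine sum_congr rfl fun l _ => ?_
    rw [Complex.re_sum]
    exact sum_congr rfl fun l' _ => e1_re _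
  unfold mean
  rw [norm_div, Complex.norm_natCast, div_pow, h1]
  simp only [sum_sub_distrib, sum_const, card_univ, Fintype.card_fin, nsmul_eq_mul, mul_one]
  field_simp

/-- the variance -/
lemma var_eq {r : ℕ} (hr : 0 < r) (φ : Fin r → ℝ) :
    ∑ l, ∑ l', (φ l - φ l') ^ 2 = 2 * r * ∑ l, (φ l - (∑ l', φ l') / r) ^ 2 := by
  have hr' : (r : ℝ) ≠ 0 := by exact_mod_cast hr.ne'
  have h1 : ∀ l, ∑ l', (φ l - φ l') ^ 2 = r * φ l ^ 2 - 2 * φ l * ∑ l', φ l' + ∑ l', φ l' ^ 2 := by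
    intro l
    have : ∀ l', (φ l - φ l') ^ 2 = φ l ^ 2 - 2 * φ l * φ l' + φ l' ^ 2 := fun l' => by ring
    simp only [this, sum_add_distrib, sum_sub_distrib, sum_const, card_univ, Fintype.card_fin,
      nsmul_eq_mul, ← mul_sum]
  have h2 : ∀ l, (φ l - (∑ l', φ l') / r) ^ 2 =
      φ l ^ 2 - 2 * ((∑ l', φ l') / r) * φ l + ((∑ l', φ l') / r) ^ 2 := fun l => by ring
  simp only [h1, h2, sum_add_distrib, sum_sub_distrib, sum_const, card_univ, Fintype.card_fin,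
    nsmul_eq_mul, ← mul_sum, ← sum_mul]
  have h3 : ∑ l, 2 * φ l * ∑ l', φ l' = 2 * (∑ l', φ l') ^ 2 := by
    rw [← sum_mul, ← mul_sum]; ring
  try rw [h3]
  field_simp
  ring

lemma cos_lower {x : ℝ} (hx : |x| ≤ 1 / 2) : 8 * x ^ 2 ≤ 1 - cos (2 * π * x) := by
  have hpi := pi_pos
  have h1 : cos (2 * π * x) = 1 - 2 * sin (π * |x|) ^ 2 := by
    have h2 : cos (2 * π * x) = cos (2 * (π * |x|)) := by
      rcases abs_choice x with h | h <;> rw [h]
      · congr 1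
        ring
      · rw [← cos_neg]
        congr 1
        ring
    rw [h2, cos_two_mul, cos_sq']
    ring
  have h3 : 2 * |x| ≤ sin (π * |x|) := by
    have h4 := mul_le_sin (x := π * |x|) (by positivity) (by nlinarith)
    have h5 : 2 / π * (π * |x|) = 2 * |x| := by
      field_simp
    linarith
  have h6 : (2 * |x|) ^ 2 ≤ sin (π * |x|) ^ 2 := by
    have := abs_nonneg x
    gcongr
  have h7 : (2 * |x|) ^ 2 = 4 * x ^ 2 := by
    rw [mul_pow, sq_abs]
    norm_num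
  rw [h1]
  linarith

/-- independent sums -/
lemma sum_sq_pi {ι : Type*} [Fintype ι] [DecidableEq ι] {r : ℕ} (hr : 0 < r) (ψ : ι → Fin r → ℝ)
    (h0 : ∀ i, ∑ l, ψ i l = 0) : ∑ y : ι → Fin r, (∑ i, ψ i (y i)) ^ 2 =
      (r : ℝ) ^ Fintype.card ι * ((∑ i, ∑ l, ψ i l ^ 2) / r) := by
  have hr' : (r : ℝ) ≠ 0 := by exact_mod_cast hr.ne'
  have hprod : ∀ g : ι → Fin r → ℝ, ∑ y : ι → Fin r, ∏ k, g k (y k) = ∏ k, ∑ l, g k l := by
    intro g
    rw [prod_univ_sum]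
    simp
  have h1 : ∀ i j, i ≠ j → ∑ y : ι → Fin r, ψ i (y i) * ψ j (y j) = 0 := by
    intro i j hij
    have h2 := hprod fun k l => if k = i then ψ i l else if k = j then ψ j l else 1
    have h3 : ∀ y : ι → Fin r, ∏ k, (if k = i then ψ i (y k) else if k = j then ψ j (y k) else 1) =
        ψ i (y i) * ψ j (y j) := by
      intro y
      rw [← mul_prod_erase univ _ (mem_univ i), if_pos rfl,
        ← mul_prod_erase (univ.erase i) _ (mem_erase.2 ⟨hij.symm, mem_univ j⟩), if_neg hij.symm,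
        if_pos rfl, prod_eq_one, mul_one]
      intro k hk
      rw [mem_erase, mem_erase] at hk
      rw [if_neg hk.2.1, if_neg hk.1]
    rw [sum_congr rfl fun y _ => h3 y] at h2
    rw [h2]
    refine prod_eq_zero (mem_univ i) ?_
    simp [h0 i]
  have h2 : ∀ i, ∑ y : ι → Fin r, ψ i (y i) * ψ i (y i) =
      (r : ℝ) ^ Fintype.card ι * ((∑ l, ψ i l ^ 2) / r) := by
    intro i
    have h2 := hprod fun k l => if k = i then ψ i l * ψ i l else 1
    have h3 : ∀ y : ι → Fin r, ∏ k, (if k = i then ψ i (y k) * ψ i (y k) else 1) =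
        ψ i (y i) * ψ i (y i) := by
      intro y
      rw [prod_ite_eq' univ i]
      simp
    rw [sum_congr rfl fun y _ => h3 y] at h2
    rw [h2, ← mul_prod_erase univ _ (mem_univ i)]
    simp only [if_true]
    have h4 : ∏ k ∈ univ.erase i, ∑ l : Fin r, (if k = i then ψ i l * ψ i l else (1 : ℝ)) =
        (r : ℝ) ^ (Fintype.card ι - 1) := by
      rw [prod_congr rfl (g := fun _ => (r : ℝ)), prod_const, card_erase_of_mem (mem_univ i),
        card_univ]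
      intro k hk
      rw [sum_congr rfl fun l _ => if_neg (mem_erase.1 hk).1]
      simp
    rw [h4]
    have hpos : 0 < Fintype.card ι := Fintype.card_pos_iff.2 ⟨i⟩
    obtain ⟨m, hm⟩ : ∃ m, Fintype.card ι = m + 1 := ⟨Fintype.card ι - 1, by omega⟩
    rw [hm, Nat.add_sub_cancel, pow_succ]
    have : ∑ l, ψ i l * ψ i l = ∑ l, ψ i l ^ 2 := sum_congr rfl fun l _ => by ring
    rw [this]
    field_simp
  have h3 : ∀ y : ι → Fin r, (∑ i, ψ i (y i)) ^ 2 = ∑ i, ∑ j, ψ i (y i) * ψ j (y j) := by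
    intro y
    rw [sq, sum_mul_sum]
  rw [sum_congr rfl fun y _ => h3 y, sum_comm]
  have h4 : ∀ i, ∑ y : ι → Fin r, ∑ j, ψ i (y i) * ψ j (y j) =
      (r : ℝ) ^ Fintype.card ι * ((∑ l, ψ i l ^ 2) / r) := by
    intro i
    rw [sum_comm, sum_eq_single i]
    · exact h2 i
    · intro j _ hj
      exact h1 i j (Ne.symm hj)
    · intro h
      exact absurd (mem_univ i) h
  rw [sum_congr rfl fun i _ => h4 i, ← mul_sum, sum_div]

/-- the product of the means is the mean over the choice functions -/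
lemma prod_mean {ι : Type*} [Fintype ι] [DecidableEq ι] {r : ℕ} (φ : ι → Fin r → ℝ) :
    ∏ i, mean (φ i) = (∑ y : ι → Fin r, e1 (∑ i, φ i (y i))) / r ^ Fintype.card ι := by
  unfold mean
  rw [prod_div_distrib, prod_const, card_univ, prod_univ_sum]
  congr 1
  rw [Fintype.piFinset_univ]
  exact sum_congr rfl fun y _ => (e1_sum _ _).symm

/-- the product of means of sets of close points with mean zero is close to one -/
lemma one_sub_re_prod {ι : Type*} [Fintype ι] [DecidableEq ι] {r : ℕ} (hr : 0 < r)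
    (φ : ι → Fin r → ℝ) (h0 : ∑ i, ∑ l, φ i l = 0) (h1 : ∀ i l l', |φ i l - φ i l'| ≤ 1 / 2) :
    1 - (∏ i, mean (φ i)).re ≤ 5 / 4 * ∑ i, (1 - ‖mean (φ i)‖ ^ 2) := by
  have hr' : (0 : ℝ) < r := by exact_mod_cast hr
  set ψ : ι → Fin r → ℝ := fun i l => φ i l - (∑ l', φ i l') / r with hψ
  have hψ0 : ∀ i, ∑ l, ψ i l = 0 := by
    intro i
    simp only [hψ, sum_sub_distrib, sum_const, card_univ, Fintype.card_fin, nsmul_eq_mul]
    field_simp
    ring
  have hs : ∀ y : ι → Fin r, ∑ i, φ i (y i) = ∑ i, ψ i (y i) := by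
    intro y
    simp only [hψ, sum_sub_distrib, ← sum_div, h0]
    simp
  have h2 : (∏ i, mean (φ i)).re =
      (∑ y : ι → Fin r, cos (2 * π * ∑ i, ψ i (y i))) / r ^ Fintype.card ι := by
    rw [prod_mean]
    have h3 : ((r : ℂ) ^ Fintype.card ι) = (((r : ℝ) ^ Fintype.card ι : ℝ) : ℂ) := by push_cast; rfl
    rw [h3, Complex.div_ofReal_re, Complex.re_sum]
    congr 1
    refine sum_congr rfl fun y _ => ?_
    rw [e1_re, hs]
  have hP : (0 : ℝ) < (r : ℝ) ^ Fintype.card ι := by positivity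
  have h4 : 1 - (∏ i, mean (φ i)).re ≤
      (∑ y : ι → Fin r, 2 * π ^ 2 * (∑ i, ψ i (y i)) ^ 2) / r ^ Fintype.card ι := by
    rw [h2, le_div_iff₀ hP, sub_mul, div_mul_cancel₀ _ hP.ne', one_mul]
    have h5 : (r : ℝ) ^ Fintype.card ι = ∑ _y : ι → Fin r, (1 : ℝ) := by
      simp
    rw [h5, ← sum_sub_distrib]
    refine sum_le_sum fun y _ => ?_
    have := one_sub_sq_div_two_le_cos (x := 2 * π * ∑ i, ψ i (y i))
    nlinarith
  rw [← mul_sum, sum_sq_pi hr ψ hψ0, mul_div_assoc, mul_div_cancel_left₀ _ hP.ne'] at h4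
  refine h4.trans ?_
  have h6 : ∀ i, 16 / r * ∑ l, ψ i l ^ 2 ≤ 1 - ‖mean (φ i)‖ ^ 2 := by
    intro i
    rw [norm_mean_sq hr]
    have h7 : 8 * ∑ l, ∑ l', (φ i l - φ i l') ^ 2 ≤
        ∑ l, ∑ l', (1 - cos (2 * π * (φ i l - φ i l'))) := by
      rw [mul_sum]
      refine sum_le_sum fun l _ => ?_
      rw [mul_sum]
      exact sum_le_sum fun l' _ => cos_lower (h1 i l l')
    rw [var_eq hr] at h7
    rw [le_div_iff₀ (by positivity)]
    refine le_trans (le_of_eq ?_) h7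
    simp only [hψ]
    field_simp
    ring
  have h8 : ∑ i, ∑ l, ψ i l ^ 2 ≤ r / 16 * ∑ i, (1 - ‖mean (φ i)‖ ^ 2) := by
    rw [mul_sum]
    refine sum_le_sum fun i _ => ?_
    have := h6 i
    rw [div_mul_eq_mul_div, div_le_iff₀ hr'] at this
    linarith
  have hV : 0 ≤ ∑ i, (1 - ‖mean (φ i)‖ ^ 2) := by
    refine sum_nonneg fun i _ => ?_
    have := norm_mean_le hr (φ i)
    nlinarith [norm_nonneg (mean (φ i))]
  have hpi : π ^ 2 ≤ 10 := by
    have := pi_lt_d2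
    nlinarith [pi_pos]
  calc 2 * π ^ 2 * ((∑ i, ∑ l, ψ i l ^ 2) / r) ≤
        2 * π ^ 2 * ((r / 16 * ∑ i, (1 - ‖mean (φ i)‖ ^ 2)) / r) := by gcongr
    _ = π ^ 2 * (1 / 8 * ∑ i, (1 - ‖mean (φ i)‖ ^ 2)) := by field_simp; ring
    _ ≤ 10 * (1 / 8 * ∑ i, (1 - ‖mean (φ i)‖ ^ 2)) := by gcongr
    _ = 5 / 4 * ∑ i, (1 - ‖mean (φ i)‖ ^ 2) := by ring

/-- products of numbers in `[0, 1]` -/
lemma prod_le {ι : Type*} (s : Finset ι) (v : ι → ℝ) (h0 : ∀ i, 0 ≤ v i) (h1 : ∀ i, v i ≤ 1) :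
    (∏ i ∈ s, (1 - v i)) * (1 + ∑ i ∈ s, v i) ≤ 1 := by
  classical
  induction s using Finset.induction_on with
  | empty => simp
  | insert a s ha ih =>
    rw [prod_insert ha, sum_insert ha]
    have hP0 : 0 ≤ ∏ i ∈ s, (1 - v i) := prod_nonneg fun i _ => by linarith [h1 i]
    have hP1 : ∏ i ∈ s, (1 - v i) ≤ 1 := prod_le_one (fun i _ => by linarith [h1 i])
      fun i _ => by linarith [h0 i]
    have hS0 : 0 ≤ ∑ i ∈ s, v i := sum_nonneg fun i _ => h0 i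
    have h2 := h0 a
    have h3 := h1 a
    -- (1 - a) P (1 + a + S) = P (1 + S) - a P (a + S) ≤ 1
    have h4 : (1 - v a) * (∏ i ∈ s, (1 - v i)) * (1 + (v a + ∑ i ∈ s, v i)) =
        (∏ i ∈ s, (1 - v i)) * (1 + ∑ i ∈ s, v i) -
          v a * (∏ i ∈ s, (1 - v i)) * (v a + ∑ i ∈ s, v i) := by ring
    rw [h4]
    have h5 : 0 ≤ v a * (∏ i ∈ s, (1 - v i)) * (v a + ∑ i ∈ s, v i) := by positivity
    linarith

end Pool.Agent.Helper104.ER
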